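import Mathlib

/-! Permutations of a finite set. -/

set_option autoImplicit false
set_option linter.unusedSectionVars false

namespace Pool.Agent.H48.Sp

open Finset Classical

variable {ι : Type} [Fintype ι]

theorem exists_perm_on (G X Y : Finset ι) (hX : X ⊆ G) (hY : Y ⊆ G)
    (h : X.card = Y.card) : ∃ τ : Equiv.Perm ι, X.image τ = Y ∧ ∀ i ∉ G, τ i = i := by
  let p : {x // x ∈ G} → Prop := fun x => x.1 ∈ X
  let q : {x // x ∈ G} → Prop := fun x => x.1 ∈ Y
  have e : {x // p x} ≃ {x // q x} := by
    refine Fintype.equivOfCardEq ?_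
    have h1 : Fintype.card {x // p x} = X.card := by
      rw [← Fintype.card_coe X]
      exact Fintype.card_congr (Equiv.subtypeSubtypeEquivSubtype fun {x} (hx : x ∈ X) => hX hx)
    have h2 : Fintype.card {x // q x} = Y.card := by
      rw [← Fintype.card_coe Y]
      exact Fintype.card_congr (Equiv.subtypeSubtypeEquivSubtype fun {x} (hx : x ∈ Y) => hY hx)
    rw [h1, h2, h]
  let τ : Equiv.Perm ι := Equiv.Perm.ofSubtype (p := fun x => x ∈ G) e.extendSubtype
  refine ⟨τ, ?_, ?_⟩
  · refine Finset.eq_of_subset_of_card_le ?_ ?_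
    · intro y hy
      rw [mem_image] at hy
      obtain ⟨x, hx, rfl⟩ := hy
      have h1 : τ x = (e.extendSubtype ⟨x, hX hx⟩).1 :=
        Equiv.Perm.ofSubtype_apply_of_mem (p := fun x => x ∈ G) _ (hX hx)
      rw [h1]
      exact e.extendSubtype_mem ⟨x, hX hx⟩ hx
    · rw [card_image_of_injective X τ.injective, h]
  · intro i hi
    exact Equiv.Perm.ofSubtype_apply_of_not_mem (p := fun x => x ∈ G) _ hi

theorem exists_perm (X Y : Finset ι) (h : X.card = Y.card) :
    ∃ τ : Equiv.Perm ι, X.image τ = Y := by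
  obtain ⟨τ, h1, _⟩ := exists_perm_on univ X Y (subset_univ _) (subset_univ _) h
  exact ⟨τ, h1⟩

/-- sets containing the support of a permutation are invariant -/
theorem image_of_supset {τ : Equiv.Perm ι} {G K : Finset ι} (hτ : ∀ i ∉ G, τ i = i)
    (h : G ⊆ K) : K.image τ = K := by
  refine Finset.eq_of_subset_of_card_le ?_ ?_
  · intro y hy
    rw [mem_image] at hy
    obtain ⟨x, hx, rfl⟩ := hy
    by_cases hG : τ x ∈ G
    · exact h hG
    · have := τ.injective (hτ _ hG)
      rw [this]; exact hx
  · rw [card_image_of_injective K τ.injective]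

/-- sets disjoint from the support of a permutation are invariant -/
theorem image_of_disj {τ : Equiv.Perm ι} {G K : Finset ι} (hτ : ∀ i ∉ G, τ i = i)
    (h : ∀ i ∈ K, i ∉ G) : K.image τ = K := by
  ext y
  rw [mem_image]
  constructor
  · rintro ⟨x, hx, rfl⟩
    rw [hτ x (h x hx)]; exact hx
  · intro hy
    exact ⟨y, hy, hτ y (h y hy)⟩

/-- sum over permutations of a function of the image depends only on the size -/
theorem perm_sum_eq (F : Finset ι → ℝ) {K T : Finset ι} (h : K.card = T.card) :
    ∑ σ : Equiv.Perm ι, F (K.image σ) = ∑ σ : Equiv.Perm ι, F (T.image σ) := by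
  obtain ⟨τ, hτ⟩ := exists_perm K T h
  rw [← Equiv.sum_comp (Equiv.mulRight τ) fun σ : Equiv.Perm ι => F (K.image σ)]
  rw [← hτ]
  refine sum_congr rfl fun σ _ => ?_
  rw [image_image]
  rfl

/-- conversion between averages over permutations and over subsets -/
theorem perm_sum_subsets (F : Finset ι → ℝ) (K : Finset ι) :
    ((Fintype.card ι).choose K.card : ℝ) * ∑ σ : Equiv.Perm ι, F (K.image σ) =
      ((Fintype.card ι).factorial : ℝ) * ∑ T ∈ powersetCard K.card (univ : Finset ι), F T := by
  have h1 : ∑ T ∈ powersetCard K.card (univ : Finset ι), ∑ σ : Equiv.Perm ι, F (T.image σ) =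
      ((Fintype.card ι).choose K.card : ℝ) * ∑ σ : Equiv.Perm ι, F (K.image σ) := by
    rw [sum_congr rfl fun T hT => perm_sum_eq F (mem_powersetCard.1 hT).2, sum_const,
      card_powersetCard, card_univ, nsmul_eq_mul]
  have h2 : ∀ σ : Equiv.Perm ι, ∑ T ∈ powersetCard K.card (univ : Finset ι), F (T.image σ) =
      ∑ T ∈ powersetCard K.card (univ : Finset ι), F T := by
    intro σ
    refine sum_bij' (fun T _ => T.image σ) (fun T _ => T.image σ.symm) ?_ ?_ ?_ ?_ ?_
    · intro T hT
      rw [mem_powersetCard] at hT ⊢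
      exact ⟨subset_univ _, by rw [card_image_of_injective _ σ.injective, hT.2]⟩
    · intro T hT
      rw [mem_powersetCard] at hT ⊢
      exact ⟨subset_univ _, by rw [card_image_of_injective _ σ.symm.injective, hT.2]⟩
    · intro T _; rw [image_image]; simp
    · intro T _; rw [image_image]; simp
    · intro T _; rfl
  rw [← h1, sum_comm]
  simp only [h2]
  rw [sum_const, card_univ, Fintype.card_perm, nsmul_eq_mul]

end Pool.Agent.H48.Sp
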