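import Pool.Agent.H48.Split.NA
import Pool.Agent.H48.Split.Perm

/-! The main lemma on symmetric systems of rank functions: two scales and a family of sets at which
the rank function does not increase. -/

set_option autoImplicit false
set_option linter.unusedSectionVars false

namespace Pool.Agent.H48.Sp

open Finset Classical

/-- symmetric rank functions -/
structure RS {ι : Type} [Fintype ι] (R : Finset ι → Finset (Finset ι) → ℝ) (d : ℝ) : Prop where
  h0 : ∀ E, 0 ≤ R E ∅ ∧ R E ∅ ≤ d
  mono : ∀ E S K, E ⊆ K → R E S ≤ R E (insert K S)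
  incr : ∀ E S K, E ⊆ K → R E (insert K S) ≤ R E S + d
  sub : ∀ E S S' K, E ⊆ K → S ⊆ S' → R E (insert K S') - R E S' ≤ R E (insert K S) - R E S
  symm : ∀ (τ : Equiv.Perm ι) E S, R (E.image τ) (S.image fun K => K.image τ) = R E S

section
variable {ι : Type} [Fintype ι] {R : Finset ι → Finset (Finset ι) → ℝ} {d : ℝ}

theorem RS.nonneg (h : RS R d) {E : Finset ι} {S : Finset (Finset ι)} (hE : ∀ K ∈ S, E ⊆ K) :
    0 ≤ R E S := by
  induction S using Finset.induction_on with
  | empty => exact (h.h0 E).1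
  | insert K S _ ih =>
    exact (ih fun K' hK' => hE K' (mem_insert_of_mem hK')).trans
      (h.mono E S K (hE K (mem_insert_self _ _)))

theorem RS.le (h : RS R d) {E : Finset ι} {S : Finset (Finset ι)} (hE : ∀ K ∈ S, E ⊆ K) :
    R E S ≤ d * (S.card + 1) := by
  induction S using Finset.induction_on with
  | empty => simpa using (h.h0 E).2
  | insert K S hK ih =>
    have h1 := ih fun K' hK' => hE K' (mem_insert_of_mem hK')
    have h2 := h.incr E S K (hE K (mem_insert_self _ _))
    rw [card_insert_of_notMem hK]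
    push_cast
    linarith

theorem RS.mono' (h : RS R d) {E : Finset ι} {S S' : Finset (Finset ι)} (hS : S ⊆ S')
    (hE : ∀ K ∈ S', E ⊆ K) : R E S ≤ R E S' := by
  obtain ⟨T, rfl⟩ : ∃ T, S' = T ∪ S := ⟨S', (union_eq_left.2 hS).symm⟩
  clear hS
  induction T using Finset.induction_on with
  | empty => simp
  | insert K T _ ih =>
    rw [insert_union]
    refine (ih fun K' hK' => hE K' ?_).trans (h.mono E _ K (hE K ?_))
    · rw [insert_union]; exact mem_insert_of_mem hK'
    · rw [insert_union]; exact mem_insert_self _ _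

/-- subadditivity of increments -/
theorem RS.subadd (h : RS R d) {E : Finset ι} {S : Finset (Finset ι)} (D : Finset ℕ)
    (f : ℕ → Finset ι) (hE : ∀ x ∈ D, E ⊆ f x) :
    R E (D.image f ∪ S) - R E S ≤ ∑ x ∈ D, (R E (insert (f x) S) - R E S) := by
  induction D using Finset.induction_on with
  | empty => simp
  | insert x D hx ih =>
    have h1 := ih fun x' hx' => hE x' (mem_insert_of_mem hx')
    have h2 := h.sub E S (D.image f ∪ S) (f x) (hE x (mem_insert_self _ _)) subset_union_right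
    rw [sum_insert hx, image_insert, insert_union]
    linarith

end

/-- initial segments -/
noncomputable def seg {ι : Type} [Fintype ι] {N : ℕ} (e : ι ≃ Fin N) (k : ℕ) : Finset ι :=
  univ.filter fun i => (e i : ℕ) < k

theorem mem_seg {ι : Type} [Fintype ι] {N : ℕ} (e : ι ≃ Fin N) (k : ℕ) (i : ι) :
    i ∈ seg e k ↔ (e i : ℕ) < k := by simp [seg]

theorem seg_card {ι : Type} [Fintype ι] {N : ℕ} (e : ι ≃ Fin N) {k : ℕ} (hk : k ≤ N) :
    (seg e k).card = k := by
  have h1 : (seg e k).map e.toEmbedding = (univ : Finset (Fin k)).map (Fin.castLEEmb hk) := by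
    ext i
    simp only [mem_map, mem_univ, true_and, mem_seg]
    constructor
    · rintro ⟨j, hj, rfl⟩; exact ⟨⟨_, hj⟩, rfl⟩
    · rintro ⟨j, rfl⟩
      exact ⟨e.symm (Fin.castLEEmb hk j), by simp, by simp⟩
  have h2 := congrArg card h1
  rwa [card_map, card_map, card_univ, Fintype.card_fin] at h2

theorem seg_mono {ι : Type} [Fintype ι] {N : ℕ} (e : ι ≃ Fin N) {k l : ℕ} (h : k ≤ l) :
    seg e k ⊆ seg e l := by
  intro i hi
  rw [mem_seg] at hi ⊢
  omega

theorem AML (d ε' : ℝ) (hd : 0 ≤ d) (hε : 0 < ε') :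
    ∃ B : ℕ, ∀ s0 : ℕ, 1 ≤ s0 → ∃ N0 : ℕ, ∀ (ι : Type) [Fintype ι], N0 ≤ Fintype.card ι →
      ∀ R : Finset ι → Finset (Finset ι) → ℝ, RS R d →
        ∃ E0 E1 K1 K2 : Finset ι, ∃ S : Finset (Finset ι), E0 ⊆ E1 ∧ s0 ≤ E0.card ∧
          2 * E0.card ≤ E1.card ∧ S.card ≤ B ∧ (∀ K ∈ S, E1 ⊆ K) ∧ K1 ∈ S ∧ K2 ∈ S ∧
          K1 ∩ K2 = E1 ∧ K1 ≠ K2 ∧ 4 * K1.card ≤ Fintype.card ι ∧
          4 * K2.card ≤ Fintype.card ι ∧ R E1 S - R E0 S ≤ ε' := by
  -- parameters
  obtain ⟨ε, hε0, hε1⟩ : ∃ ε : ℝ, 0 < ε ∧ 3 * ε ≤ ε' / 3 := ⟨ε' / 9, by positivity, by linarith⟩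
  obtain ⟨J, hJ1, hJ⟩ : ∃ J : ℕ, 1 ≤ J ∧ d ≤ J * (ε' / 3) := by
    obtain ⟨J, hJ⟩ := exists_nat_ge (d / (ε' / 3))
    refine ⟨J + 1, by omega, ?_⟩
    rw [div_le_iff₀ (by positivity)] at hJ
    push_cast
    nlinarith
  obtain ⟨Λ, hΛ⟩ : ∃ Λ : ℕ, d < Λ * (ε' / 3) := by
    obtain ⟨Λ, hΛ⟩ := exists_nat_gt (d / (ε' / 3))
    refine ⟨Λ, ?_⟩
    rwa [div_lt_iff₀ (by positivity)] at hΛ
  obtain ⟨M, hM⟩ : ∃ M : ℕ, M = J ^ Λ := ⟨_, rfl⟩
  obtain ⟨h, hh⟩ : ∃ h : ℕ, d * (M + 2) / ε < h := exists_nat_gt _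
  obtain ⟨P, hP⟩ : ∃ P : Finset (Finset ℕ), P = powerset (range (M + 1)) := ⟨_, rfl⟩
  obtain ⟨Q, hQ⟩ : ∃ Q : ℕ, Q = (h + 1) ^ (Fintype.card P) + 1 := ⟨_, rfl⟩
  refine ⟨M + 2, fun s0 hs0 => ?_⟩
  let s : ℕ → ℕ := fun i => s0 * 2 ^ i
  have hs_succ : ∀ i, s (i + 1) = 2 * s i := fun i => by simp only [s, pow_succ]; ring
  have hs_mono : ∀ i j, i ≤ j → s i ≤ s j := fun i j hij =>
    Nat.mul_le_mul_left _ (Nat.pow_le_pow_right (by norm_num) hij)
  have hs_two : ∀ i j, i < j → 2 * s i ≤ s j := fun i j hij => by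
    rw [← hs_succ]; exact hs_mono _ _ hij
  have hs_pos : ∀ i, s0 ≤ s i := fun i => Nat.le_mul_of_pos_right _ (by positivity)
  refine ⟨4 * s (Q + M), ?_⟩
  intro ι _ hN R hR
  obtain ⟨N, hN'⟩ : ∃ N, N = Fintype.card ι := ⟨_, rfl⟩
  rw [← hN'] at hN
  let e : ι ≃ Fin N := Fintype.equivFinOfCardEq hN'.symm
  let f : ℕ → Finset ι := fun x => seg e (s (Q + x))
  let v : ℕ → Finset ℕ → ℝ := fun q X => R (seg e (s q)) (X.image f)
  have hsegf : ∀ q, q ≤ Q → ∀ x, seg e (s q) ⊆ f x := fun q hq x =>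
    seg_mono e (hs_mono _ _ (by omega))
  have hsegf' : ∀ q, q ≤ Q → ∀ X : Finset ℕ, ∀ K ∈ X.image f, seg e (s q) ⊆ K := by
    intro q hq X K hK
    rw [mem_image] at hK
    obtain ⟨x, _, rfl⟩ := hK
    exact hsegf q hq x
  -- pigeonhole
  obtain ⟨q, q', hqq', hq', hvv⟩ : ∃ q q' : ℕ, q < q' ∧ q' < Q ∧
      ∀ X ∈ P, |v q X - v q' X| ≤ ε := by
    let φ : Fin Q → (P → Fin (h + 1)) := fun q X =>
      ⟨⌊v q X.1 / ε⌋₊ % (h + 1), Nat.mod_lt _ (by omega)⟩
    have hcard : Fintype.card (P → Fin (h + 1)) < Fintype.card (Fin Q) := by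
      rw [Fintype.card_fun, Fintype.card_fin, Fintype.card_fin, hQ]
      omega
    obtain ⟨q, q', hne, heq⟩ := Fintype.exists_ne_map_eq_of_card_lt φ hcard
    have hfl : ∀ q : Fin Q, ∀ X ∈ P, ⌊v q X / ε⌋₊ < h + 1 := by
      intro q X hX
      have h1 := hR.le (E := seg e (s q)) (S := X.image f) (hsegf' q q.2.le X)
      have h2 : ((X.image f).card : ℝ) ≤ M + 1 := by
        have : (X.image f).card ≤ M + 1 := by
          refine card_image_le.trans ?_
          rw [hP] at hX
          have := card_le_card (mem_powerset.1 hX)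
          rwa [card_range] at this
        exact_mod_cast this
      have h3 : v q X / ε ≤ d * (M + 2) / ε := by
        refine div_le_div_of_nonneg_right ?_ hε0.le
        refine h1.trans (mul_le_mul_of_nonneg_left ?_ hd)
        linarith
      have h4 : v q X / ε < (h + 1 : ℕ) := by push_cast; linarith
      rw [Nat.floor_lt' (by omega)]
      exact h4
    have hclose : ∀ X ∈ P, |v q X - v q' X| ≤ ε := by
      intro X hX
      have h1 := congrArg Fin.val (congrFun heq ⟨X, hX⟩)
      simp only [φ] at h1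
      rw [Nat.mod_eq_of_lt (hfl q X hX), Nat.mod_eq_of_lt (hfl q' X hX)] at h1
      have n1 : 0 ≤ v q X / ε :=
        div_nonneg (hR.nonneg (hsegf' q q.2.le X)) hε0.le
      have n2 : 0 ≤ v q' X / ε :=
        div_nonneg (hR.nonneg (hsegf' q' q'.2.le X)) hε0.le
      have a1 := Nat.floor_le n1
      have a2 := Nat.floor_le n2
      have b1 := Nat.lt_floor_add_one (v q X / ε)
      have b2 := Nat.lt_floor_add_one (v q' X / ε)
      rw [h1] at a1 b1
      have c1 : |v q X / ε - v q' X / ε| ≤ 1 := by rw [abs_le]; constructor <;> linarith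
      have c2 : v q X / ε - v q' X / ε = (v q X - v q' X) / ε := by ring
      rw [c2, abs_div, abs_of_pos hε0, div_le_one hε0] at c1
      exact c1
    rcases lt_or_gt_of_ne hne with h1 | h1
    · exact ⟨q, q', h1, q'.2, hclose⟩
    · refine ⟨q', q, h1, q.2, fun X hX => ?_⟩
      rw [abs_sub_comm]; exact hclose X hX
  -- near additivity
  have hqQ : q ≤ Q := by omega
  have hq'Q : q' ≤ Q := by omega
  obtain ⟨A, D, m, hA, hD, hDJ, hDm, hmA, hm1, hmM, hna⟩ := NA (v q) d (ε' / 3) J Λ hJ1 hΛ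
    (fun X x => by
      simp only [v]
      rw [image_insert]; exact hR.mono _ _ _ (hsegf q hqQ x))
    (fun X x => by
      simp only [v]
      rw [image_insert]; exact hR.incr _ _ _ (hsegf q hqQ x))
    (fun X Y x hXY => by
      simp only [v]
      rw [image_insert, image_insert]
      exact hR.sub _ _ _ _ (hsegf q hqQ x) (image_subset_image hXY))
  rw [← hM] at hA hD hmM
  -- the set K_b
  obtain ⟨u, hu⟩ : ∃ u, u = s (Q + m) := ⟨_, rfl⟩
  obtain ⟨c, hc⟩ : ∃ c, c = s Q := ⟨_, rfl⟩
  obtain ⟨n1, hn1⟩ : ∃ n1, n1 = s q' := ⟨_, rfl⟩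
  have hn1c : 2 * n1 ≤ c := by rw [hn1, hc]; exact hs_two _ _ hq'
  have hcu : 2 * c ≤ u := by rw [hu, hc]; exact hs_two _ _ (by omega)
  have hn1pos : 1 ≤ n1 := by rw [hn1]; exact hs0.trans (hs_pos _)
  have huN : 4 * u ≤ N := by
    rw [hu]; exact (Nat.mul_le_mul_left 4 (hs_mono _ _ (by omega))).trans hN
  let G : Finset ι := seg e (2 * u) \ seg e n1
  let X0 : Finset ι := seg e (u + c - n1) \ seg e u
  let Kb : Finset ι := seg e n1 ∪ X0
  have hX0G : X0 ⊆ G := by
    intro i hi
    simp only [X0, G, mem_sdiff, mem_seg] at hi ⊢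
    omega
  have hYG : seg e c \ seg e n1 ⊆ G := by
    intro i hi
    simp only [G, mem_sdiff, mem_seg] at hi ⊢
    omega
  have hX0card : X0.card = c - n1 := by
    simp only [X0]
    rw [card_sdiff_of_subset (seg_mono e (by omega)), seg_card e (by omega),
      seg_card e (by omega)]
    omega
  have hYcard : (seg e c \ seg e n1).card = c - n1 := by
    rw [card_sdiff_of_subset (seg_mono e (by omega)), seg_card e (by omega),
      seg_card e (by omega)]
  obtain ⟨τ, hτ1, hτ2⟩ := exists_perm_on G X0 _ hX0G hYG (hX0card.trans hYcard.symm)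
  have hτn1 : (seg e n1).image τ = seg e n1 := image_of_disj hτ2 fun i hi hi' => by
    simp only [G, mem_sdiff] at hi'
    exact hi'.2 hi
  have hτn0 : (seg e (s q)).image τ = seg e (s q) := image_of_disj hτ2 fun i hi hi' => by
    simp only [G, mem_sdiff] at hi'
    exact hi'.2 (seg_mono e (by rw [hn1]; exact hs_mono _ _ hqq'.le) hi)
  have hτKb : Kb.image τ = seg e c := by
    simp only [Kb]
    rw [image_union, hτn1, hτ1, union_sdiff_of_subset (seg_mono e (by omega))]
  have hτA : (A.image f).image (fun K => K.image τ) = A.image f := by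
    rw [image_image]
    refine image_congr fun y hy => ?_
    have : 2 * u ≤ s (Q + y) := by
      rw [hu]; exact hs_two _ _ (by have := hmA y hy; omega)
    exact image_of_supset hτ2 (sdiff_subset.trans (seg_mono e this))
  have hf0 : f 0 = seg e c := by simp only [f, hc, Nat.add_zero]
  -- the values with K_b
  have hKb0 : ∀ q1, q1 ≤ q' → R (seg e (s q1)) (insert Kb (A.image f)) = v q1 (insert 0 A) := by
    intro q1 hq1
    have hτq : (seg e (s q1)).image τ = seg e (s q1) := image_of_disj hτ2 fun i hi hi' => by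
      simp only [G, mem_sdiff] at hi'
      exact hi'.2 (seg_mono e (by rw [hn1]; exact hs_mono _ _ hq1) hi)
    have h1 := hR.symm τ (seg e (s q1)) (insert Kb (A.image f))
    rw [image_insert, hτKb, hτA, hτq] at h1
    rw [← h1]
    simp only [v]
    rw [image_insert, hf0]
  -- memberships in the powerset
  rw [hP] at hvv
  have hAr : A ∈ powerset (range (M + 1)) := by
    rw [mem_powerset]; intro y hy; have := mem_Icc.1 (hA hy); rw [mem_range]; omega
  have h0A : insert 0 A ∈ powerset (range (M + 1)) := by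
    rw [mem_powerset] at hAr ⊢
    refine insert_subset (by simp) hAr
  have hxA : ∀ x ∈ D, insert x A ∈ powerset (range (M + 1)) := by
    intro x hx
    rw [mem_powerset] at hAr ⊢
    refine insert_subset ?_ hAr
    have := mem_Icc.1 (hD hx); rw [mem_range]; omega
  -- inclusions
  have hn1K : seg e n1 ⊆ Kb := subset_union_left
  have hn1f : ∀ x, seg e n1 ⊆ f x := fun x => by rw [hn1]; exact hsegf q' hq'Q x
  have hn0K : seg e (s q) ⊆ Kb := (seg_mono e (by rw [hn1]; exact hs_mono _ _ hqq'.le)).trans hn1K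
  -- upper bound at n1
  have hup : ∀ x ∈ D, R (seg e n1) (insert Kb (insert (f x) (A.image f))) ≤
      v q (insert x A) - v q A + v q (insert 0 A) + 3 * ε := by
    intro x hx
    have h1 := hR.sub (seg e n1) (A.image f) (insert (f x) (A.image f)) Kb hn1K
      (subset_insert _ _)
    have h2 : R (seg e n1) (insert Kb (A.image f)) = v q' (insert 0 A) := by
      rw [hn1]; exact hKb0 q' le_rfl
    have h3 : R (seg e n1) (insert (f x) (A.image f)) = v q' (insert x A) := by
      simp only [v]; rw [image_insert, hn1]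
    have h4 : R (seg e n1) (A.image f) = v q' A := by simp only [v]; rw [hn1]
    rw [h2, h3, h4] at h1
    have a1 := abs_le.1 (hvv _ (hxA x hx))
    have a2 := abs_le.1 (hvv _ h0A)
    have a3 := abs_le.1 (hvv _ hAr)
    linarith [a1.1, a2.1, a3.2]
  -- lower bound at n0
  have hlow : v q (A ∪ D) - v q (insert 0 A) + J * v q (insert 0 A) ≤
      ∑ x ∈ D, R (seg e (s q)) (insert Kb (insert (f x) (A.image f))) := by
    have h1 := hR.subadd (E := seg e (s q)) (S := insert Kb (A.image f)) D f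
      fun x _ => hsegf q hqQ x
    have h2 : v q (A ∪ D) ≤ R (seg e (s q)) (D.image f ∪ insert Kb (A.image f)) := by
      refine hR.mono' ?_ ?_
      · rw [image_union]
        exact union_subset ((subset_insert _ _).trans subset_union_right) subset_union_left
      · intro K hK
        rw [mem_union, mem_insert] at hK
        rcases hK with hK | rfl | hK
        · exact hsegf' q hqQ D K hK
        · exact hn0K
        · exact hsegf' q hqQ A K hK
    rw [hKb0 q hqq'.le] at h1
    rw [sum_sub_distrib, sum_const, hDJ, nsmul_eq_mul] at h1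
    have h3 : ∑ x ∈ D, R (seg e (s q)) (insert (f x) (insert Kb (A.image f))) =
        ∑ x ∈ D, R (seg e (s q)) (insert Kb (insert (f x) (A.image f))) :=
      sum_congr rfl fun x _ => by rw [insert_comm]
    rw [h3] at h1
    linarith
  -- choose x
  have hinc : v q (insert 0 A) ≤ v q A + d := by
    simp only [v]; rw [image_insert]; exact hR.incr _ _ _ (hsegf q hqQ 0)
  have hsum : ∑ x ∈ D, (R (seg e n1) (insert Kb (insert (f x) (A.image f))) -
      R (seg e (s q)) (insert Kb (insert (f x) (A.image f)))) ≤ ∑ x ∈ D, ε' := by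
    rw [sum_sub_distrib]
    have h1 := sum_le_sum hup
    rw [sum_add_distrib, sum_add_distrib, sum_const, sum_const, hDJ, nsmul_eq_mul,
      nsmul_eq_mul] at h1
    rw [sum_const, hDJ, nsmul_eq_mul]
    have h2 : (J:ℝ) * (3 * ε) ≤ J * (ε' / 3) := mul_le_mul_of_nonneg_left hε1 (by positivity)
    linarith
  have hDne : D.Nonempty := by rw [← card_pos, hDJ]; omega
  obtain ⟨x, hx, hxle⟩ := exists_le_of_sum_le hDne hsum
  have hxm : s (Q + x) ≤ u := by rw [hu]; exact hs_mono _ _ (by have := hDm x hx; omega)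
  have hcx : 2 * c ≤ s (Q + x) := by
    rw [hc]; exact hs_two _ _ (by have := (mem_Icc.1 (hD hx)).1; omega)
  have hKbcard : Kb.card = c := by
    have h1 := congrArg card hτKb
    rw [card_image_of_injective _ τ.injective, seg_card e (by omega)] at h1
    exact h1
  have hfcard : (f x).card = s (Q + x) := seg_card e (by omega)
  refine ⟨seg e (s q), seg e n1, Kb, f x, insert Kb (insert (f x) (A.image f)), ?_, ?_, ?_, ?_,
    ?_, mem_insert_self _ _, mem_insert_of_mem (mem_insert_self _ _), ?_, ?_, ?_, ?_, hxle⟩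
  · exact seg_mono e (by rw [hn1]; exact hs_mono _ _ hqq'.le)
  · have h1 : s q ≤ n1 := by rw [hn1]; exact hs_mono _ _ hqq'.le
    rw [seg_card e (by omega)]; exact hs_pos q
  · have h1 : 2 * s q ≤ n1 := by rw [hn1]; exact hs_two _ _ hqq'
    rw [seg_card e (by omega), seg_card e (by omega)]; exact h1
  · refine (card_insert_le _ _).trans ?_
    have h1 := card_insert_le (f x) (A.image f)
    have h2 : (A.image f).card ≤ M := by
      refine card_image_le.trans ((card_le_card hA).trans ?_)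
      simp
    omega
  · intro K hK
    rw [mem_insert, mem_insert, mem_image] at hK
    rcases hK with rfl | rfl | ⟨y, _, rfl⟩
    · exact hn1K
    · exact hn1f x
    · exact hn1f y
  · ext i
    simp only [Kb, X0, f, mem_inter, mem_union, mem_sdiff, mem_seg]
    omega
  · intro h1
    have := congrArg card h1
    rw [hKbcard, hfcard] at this
    omega
  · rw [hKbcard, ← hN']; omega
  · rw [hfcard, ← hN']; omega

end Pool.Agent.H48.Sp
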