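import Pool.Agent.H48.Split.Rank
import Pool.Agent.H48.Split.Main

/-! The collision hypothesis, and the symmetrised rank function. -/

set_option autoImplicit false
set_option linter.unusedSectionVars false

namespace Pool.Agent.H48.Sp

open Finset Classical

variable {ι : Type} [Fintype ι] {n : ℕ} {μ : (ι → Fin n) → ℝ}

/-- few collisions between copies -/
def CollOK (μ : (ι → Fin n) → ℝ) : Prop :=
  ∀ K : Finset ι, 4 * K.card ≤ Fintype.card ι →
    ∑ σ : Equiv.Perm ι, ∑ i ∈ (K.image σ)ᶜ, ∑ a, μ a * pp μ (K.image σ) i a ≤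
      (1 / 20) * ((Fintype.card ι).factorial : ℝ)

theorem Dv_sum (hμ : ∀ a, 0 ≤ μ a) (h1 : ∑ a, μ a = 1) (S U : Finset ι) (hSU : Disjoint S U) :
    ∑ j ∈ U, (Dv μ (insert j S) - Dv μ S) ≤ Dv μ (U ∪ S) - Dv μ S := by
  induction U using Finset.induction_on with
  | empty => simp
  | insert j U hj ih =>
    rw [disjoint_insert_right] at hSU
    have h2 := ih hSU.2
    have h3 := Dv_super hμ h1 (S := S) (T := U ∪ S) subset_union_right (i := j)
      (by rw [mem_union]; tauto)
    rw [sum_insert hj, insert_union]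
    linarith

theorem nd_coll (hμ : ∀ a, 0 ≤ μ a) (h1 : ∑ a, μ a = 1) (hN : 1 ≤ Fintype.card ι)
    (hn : 40 * (Fintype.card ι : ℝ) * Real.log 2 ≤ Real.log n) (T0 : Finset ι)
    (hT0 : Fintype.card ι ≤ 2 * T0.card)
    (hnd : ∑ σ : Equiv.Perm ι, Dv μ (T0.image σ) ≤
      ((Fintype.card ι).factorial : ℝ) * (1 / 160 * Real.log n)) : CollOK μ := by
  intro K hK
  have hl2 : 0 < Real.log 2 := Real.log_pos (by norm_num)
  have hNR : (1:ℝ) ≤ (Fintype.card ι : ℝ) := by exact_mod_cast hN
  have hL : 0 < Real.log n := by nlinarith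
  have hn1 : 1 ≤ n := by
    rcases Nat.eq_zero_or_pos n with h | h
    · rw [h] at hL; simp at hL
    · exact h
  have hT0c : T0.card ≤ Fintype.card ι := by
    rw [← card_univ]; exact card_le_card (subset_univ _)
  -- a superset of K of the right size
  obtain ⟨U, hUK, hUc⟩ : ∃ U : Finset ι, U ⊆ Kᶜ ∧ U.card = T0.card - K.card := by
    refine exists_subset_card_eq ?_
    rw [card_compl]; omega
  have hKU : Disjoint K U := by
    rw [disjoint_right]; intro i hi; exact mem_compl.1 (hUK hi)
  have hTc : (U ∪ K).card = T0.card := by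
    rw [card_union_of_disjoint hKU.symm, hUc]; omega
  -- the common increment
  obtain ⟨c, hc⟩ : ∃ c : ℝ, ∀ i ∉ K, ∑ σ : Equiv.Perm ι,
      (Dv μ (insert (σ i) (K.image σ)) - Dv μ (K.image σ)) = c := by
    by_cases hall : ∃ i, i ∉ K
    · obtain ⟨i0, hi0⟩ := hall
      refine ⟨∑ σ : Equiv.Perm ι, Dv μ (insert (σ i0) (K.image σ)) -
        ∑ σ : Equiv.Perm ι, Dv μ (K.image σ), fun i hi => ?_⟩
      rw [sum_sub_distrib]
      have := perm_sum_eq (Dv μ) (K := insert i K) (T := insert i0 K)
        (by rw [card_insert_of_notMem hi, card_insert_of_notMem hi0])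
      simp only [image_insert] at this
      rw [this]
    · push Not at hall
      exact ⟨0, fun i hi => absurd (hall i) hi⟩
  have hc0 : ∀ i ∉ K, 0 ≤ c := by
    intro i hi
    rw [← hc i hi]
    refine sum_nonneg fun σ _ => ?_
    have : σ i ∉ K.image σ := by
      rw [mem_image]; rintro ⟨j, hj, h⟩; exact hi (σ.injective h ▸ hj)
    have := Dv_insert_nonneg hμ h1 _ this
    linarith
  -- upper bound for the increment
  have h2 : (U.card : ℝ) * c ≤ ((Fintype.card ι).factorial : ℝ) * (1 / 160 * Real.log n) := by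
    have h3 : (U.card : ℝ) * c = ∑ σ : Equiv.Perm ι, ∑ j ∈ U.image σ,
        (Dv μ (insert j (K.image σ)) - Dv μ (K.image σ)) := by
      have : ∀ σ : Equiv.Perm ι, ∑ j ∈ U.image σ,
          (Dv μ (insert j (K.image σ)) - Dv μ (K.image σ)) =
          ∑ j ∈ U, (Dv μ (insert (σ j) (K.image σ)) - Dv μ (K.image σ)) := fun σ =>
        sum_image fun i _ j _ h => σ.injective h
      simp only [this]
      rw [sum_comm, sum_congr rfl fun j hj => hc j (mem_compl.1 (hUK hj)), sum_const,
        nsmul_eq_mul]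
    have h4 : ∀ σ : Equiv.Perm ι, ∑ j ∈ U.image σ,
        (Dv μ (insert j (K.image σ)) - Dv μ (K.image σ)) ≤ Dv μ ((U ∪ K).image σ) := by
      intro σ
      have h5 := Dv_sum hμ h1 (K.image σ) (U.image σ)
        ((disjoint_image σ.injective).2 hKU)
      have h6 := Dv_nonneg hμ h1 (K.image σ)
      rw [← image_union] at h5
      linarith
    rw [h3]
    refine (sum_le_sum fun σ _ => h4 σ).trans ?_
    rw [perm_sum_eq (Dv μ) hTc]
    exact hnd
  -- the sum over all i
  have h3 : ∑ σ : Equiv.Perm ι, ∑ i ∈ (K.image σ)ᶜ,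
      (Real.log 2 + (Dv μ (insert i (K.image σ)) - Dv μ (K.image σ))) =
      ((Fintype.card ι).factorial : ℝ) * ((Kᶜ.card : ℝ) * Real.log 2) + (Kᶜ.card : ℝ) * c := by
    have h4 : ∀ σ : Equiv.Perm ι, (K.image σ)ᶜ = Kᶜ.image σ := by
      intro σ
      ext i
      rw [mem_compl, mem_image, mem_image]
      constructor
      · intro h
        exact ⟨σ.symm i, mem_compl.2 fun h' => h ⟨_, h', by simp⟩, by simp⟩
      · rintro ⟨j, hj, rfl⟩ ⟨j', hj', h⟩
        exact mem_compl.1 hj (σ.injective h ▸ hj')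
    have h5 : ∀ σ : Equiv.Perm ι, ∑ i ∈ (K.image σ)ᶜ,
      (Real.log 2 + (Dv μ (insert i (K.image σ)) - Dv μ (K.image σ))) = ∑ i ∈ Kᶜ,
      (Real.log 2 + (Dv μ (insert (σ i) (K.image σ)) - Dv μ (K.image σ))) := by
      intro σ
      rw [h4]
      exact sum_image fun i _ j _ h => σ.injective h
    simp only [h5]
    rw [sum_comm]
    simp only [sum_add_distrib]
    rw [sum_congr rfl fun j (hj : j ∈ Kᶜ) => hc j (mem_compl.1 hj)]
    simp only [sum_const, card_univ, Fintype.card_perm, nsmul_eq_mul]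
    ring
  have h4 : ∀ σ : Equiv.Perm ι, ∀ i ∈ (K.image σ)ᶜ,
      Real.log n * ∑ a, μ a * pp μ (K.image σ) i a ≤
      Real.log 2 + (Dv μ (insert i (K.image σ)) - Dv μ (K.image σ)) := by
    intro σ i hi
    have h5 := pp_ent hμ h1 hn1 (K.image σ) i
    rw [Dv_insert _ (mem_compl.1 hi)]
    linarith
  have h5 : Real.log n * ∑ σ : Equiv.Perm ι, ∑ i ∈ (K.image σ)ᶜ,
      ∑ a, μ a * pp μ (K.image σ) i a ≤
      ((Fintype.card ι).factorial : ℝ) * ((Kᶜ.card : ℝ) * Real.log 2) + (Kᶜ.card : ℝ) * c := by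
    rw [← h3, mul_sum]
    refine sum_le_sum fun σ _ => ?_
    rw [mul_sum]
    exact sum_le_sum fun i hi => h4 σ i hi
  have hfac : (0:ℝ) < ((Fintype.card ι).factorial : ℝ) := by
    exact_mod_cast Nat.factorial_pos _
  have h6 : (Kᶜ.card : ℝ) * c ≤
      4 * (((Fintype.card ι).factorial : ℝ) * (1 / 160 * Real.log n)) := by
    by_cases hall : ∃ i, i ∉ K
    · obtain ⟨i, hi⟩ := hall
      have hc0' := hc0 i hi
      have h7 : (Kᶜ.card : ℝ) ≤ 4 * U.card := by
        have : Kᶜ.card ≤ 4 * U.card := by rw [card_compl, hUc]; omega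
        exact_mod_cast this
      have h8 := mul_le_mul_of_nonneg_right h7 hc0'
      linarith
    · push Not at hall
      have : Kᶜ = ∅ := by ext i; simp [hall i]
      rw [this]
      simp only [card_empty, Nat.cast_zero, zero_mul]
      positivity
  have h7 : (Kᶜ.card : ℝ) * Real.log 2 ≤ 1 / 40 * Real.log n := by
    have : (Kᶜ.card : ℝ) ≤ Fintype.card ι := by
      rw [card_compl]
      exact_mod_cast Nat.sub_le _ _
    nlinarith
  have h8 : Real.log n * ∑ σ : Equiv.Perm ι, ∑ i ∈ (K.image σ)ᶜ,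
      ∑ a, μ a * pp μ (K.image σ) i a ≤
      Real.log n * (1 / 20 * ((Fintype.card ι).factorial : ℝ)) := by
    have h9 := mul_le_mul_of_nonneg_left h7 hfac.le
    linarith
  exact le_of_mul_le_mul_left h8 hL

/-- the symmetrised rank function -/
noncomputable def Rk (μ : (ι → Fin n) → ℝ) (E : Finset ι) (S : Finset (Finset ι)) : ℝ :=
  (∑ σ : Equiv.Perm ι, rk μ (E.image σ) (S.image fun K => K.image σ)) /
    (((Fintype.card ι).factorial : ℝ) * Real.log n)

theorem Rk_RS (hμ : ∀ a, 0 ≤ μ a) (h1 : ∑ a, μ a = 1) (hL : 0 < Real.log n) {d : ℝ}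
    (hd : Dv μ univ ≤ d * Real.log n) : RS (Rk μ) d := by
  have hfac : (0:ℝ) < ((Fintype.card ι).factorial : ℝ) := by
    exact_mod_cast Nat.factorial_pos _
  have hZ : 0 < ((Fintype.card ι).factorial : ℝ) * Real.log n := mul_pos hfac hL
  have hcard : ∀ x : ℝ, ∑ σ : Equiv.Perm ι, x = ((Fintype.card ι).factorial : ℝ) * x := by
    intro x
    rw [sum_const, card_univ, Fintype.card_perm, nsmul_eq_mul]
  constructor
  · intro E
    unfold Rk
    constructor
    · refine div_nonneg (sum_nonneg fun σ _ => rk_nonneg hμ h1 ?_) hZ.le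
      intro K hK; simp at hK
    · rw [div_le_iff₀ hZ]
      have : ∑ σ : Equiv.Perm ι, rk μ (E.image σ) ((∅ : Finset (Finset ι)).image fun K =>
          K.image σ) ≤ ∑ σ : Equiv.Perm ι, d * Real.log n := by
        refine sum_le_sum fun σ _ => ?_
        rw [image_empty]
        exact (rk_empty_le hμ h1 _).trans hd
      rw [hcard] at this
      linarith
  · intro E S K hE
    unfold Rk
    refine div_le_div_of_nonneg_right (sum_le_sum fun σ _ => ?_) hZ.le
    rw [image_insert]
    exact rk_mono hμ h1 (image_subset_image hE)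
  · intro E S K hE
    unfold Rk
    have : ∑ σ : Equiv.Perm ι, rk μ (E.image σ) ((insert K S).image fun K => K.image σ) ≤
        ∑ σ : Equiv.Perm ι, (rk μ (E.image σ) (S.image fun K => K.image σ) +
          d * Real.log n) := by
      refine sum_le_sum fun σ _ => ?_
      rw [image_insert]
      exact (rk_incr hμ h1 (image_subset_image hE)).trans (by linarith)
    rw [sum_add_distrib, hcard] at this
    rw [div_le_iff₀ hZ, add_mul, div_mul_cancel₀ _ hZ.ne']
    linarith
  · intro E S S' K hE hS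
    unfold Rk
    rw [← sub_div, ← sub_div]
    refine div_le_div_of_nonneg_right ?_ hZ.le
    rw [← sum_sub_distrib, ← sum_sub_distrib]
    refine sum_le_sum fun σ _ => ?_
    rw [image_insert, image_insert]
    exact rk_submod hμ h1 (image_subset_image hE) (image_subset_image hS)
  · intro τ E S
    unfold Rk
    congr 1
    rw [← Equiv.sum_comp (Equiv.mulRight τ) fun σ : Equiv.Perm ι =>
      rk μ (E.image σ) (S.image fun K => K.image σ)]
    refine sum_congr rfl fun σ _ => ?_
    rw [image_image, image_image]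
    congr 1
    refine image_congr fun K _ => ?_
    simp only [Function.comp_apply, image_image]
    rfl

end Pool.Agent.H48.Sp
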