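import Pool.Agent.H48.Split.Ent

/-! The universal system of copies: a root `a` with law `μ` and, for every set `K` of coordinates, a
copy `b K` of `a` which agrees with `a` on `K`; the copies are independent given the root. -/

set_option autoImplicit false
set_option linter.unusedSectionVars false

namespace Pool.Agent.H48.Sp

open Finset Classical

variable {ι : Type} [Fintype ι] {n : ℕ}

/-- the coordinates -/
def cv : (ι → Fin n) → ι → Fin n := fun a => a

/-- configurations of the universal system -/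
abbrev Cf (ι : Type) (n : ℕ) : Type := (ι → Fin n) × (Finset ι → ι → Fin n)

/-- the variables of the universal system -/
def xv (ω : Cf ι n) : Option (Finset ι) × ι → Fin n
  | (none, i) => ω.1 i
  | (some K, i) => ω.2 K i

/-- the law of the universal system -/
noncomputable def WW (μ : (ι → Fin n) → ℝ) (ω : Cf ι n) : ℝ :=
  μ ω.1 * ∏ K : Finset ι, cnd μ cv K ω.1 (ω.2 K)

/-- index sets: all copies in `S` and the root, coordinates in `T` -/
noncomputable def obs (S : Finset (Finset ι)) (T : Finset ι) : Finset (Option (Finset ι) × ι) :=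
  (insert none (S.image some)) ×ˢ T

variable {μ : (ι → Fin n) → ℝ}

theorem WW_nonneg (hμ : ∀ a, 0 ≤ μ a) (ω : Cf ι n) : 0 ≤ WW μ ω :=
  mul_nonneg (hμ _) (prod_nonneg fun _ _ => cnd_nonneg hμ _ _ _)

/-- product formula -/
theorem WW_int (hμ : ∀ a, 0 ≤ μ a) (S : Finset (Finset ι)) (F : (ι → Fin n) → ℝ)
    (G : Finset ι → (ι → Fin n) → (ι → Fin n) → ℝ) :
    ∑ ω : Cf ι n, WW μ ω * (F ω.1 * ∏ K ∈ S, G K ω.1 (ω.2 K)) =
      ∑ a, μ a * (F a * ∏ K ∈ S, ∑ y, cnd μ cv K a y * G K a y) := by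
  rw [Fintype.sum_prod_type]
  refine sum_congr rfl fun a _ => ?_
  by_cases ha : μ a = 0
  · simp [WW, ha]
  have h1 : ∀ K : Finset ι, ∑ y, cnd μ cv K a y * (if K ∈ S then G K a y else 1) =
      if K ∈ S then ∑ y, cnd μ cv K a y * G K a y else 1 := by
    intro K
    by_cases hK : K ∈ S
    · simp [hK]
    · simp only [hK, if_false, mul_one]; exact cnd_sum hμ K ha
  have h2 : ∑ b : Finset ι → ι → Fin n, ∏ K : Finset ι,
      (cnd μ cv K a (b K) * (if K ∈ S then G K a (b K) else 1)) =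
      ∏ K ∈ S, ∑ y, cnd μ cv K a y * G K a y := by
    have := (Finset.prod_univ_sum (fun _ : Finset ι => (univ : Finset (ι → Fin n)))
      (fun K y => cnd μ cv K a y * (if K ∈ S then G K a y else 1))).symm
    rw [Fintype.piFinset_univ] at this
    rw [this]
    simp only [h1]
    rw [Finset.prod_ite_mem, univ_inter]
  rw [← h2, mul_sum, mul_sum]
  refine sum_congr rfl fun b _ => ?_
  rw [prod_mul_distrib, Finset.prod_ite_mem, univ_inter]
  unfold WW
  simp only
  ring

theorem WW_fst (hμ : ∀ a, 0 ≤ μ a) (F : (ι → Fin n) → ℝ) :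
    ∑ ω : Cf ι n, WW μ ω * F ω.1 = ∑ a, μ a * F a := by
  have := WW_int hμ ∅ F fun _ _ _ => 1
  simpa using this

theorem WW_sum (hμ : ∀ a, 0 ≤ μ a) (h1 : ∑ a, μ a = 1) : ∑ ω : Cf ι n, WW μ ω = 1 := by
  have := WW_fst hμ fun _ => 1
  simpa [h1] using this

theorem WW_snd (hμ : ∀ a, 0 ≤ μ a) (K : Finset ι) (G : (ι → Fin n) → ℝ) :
    ∑ ω : Cf ι n, WW μ ω * G (ω.2 K) = ∑ a, μ a * G a := by
  have := WW_int hμ {K} (fun _ => 1) fun _ _ y => G y
  simp only [one_mul, prod_singleton] at this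
  rw [this, ← sum_atom (ξ := cv) hμ K G]
  refine sum_congr rfl fun a _ => ?_
  congr 1
  rw [sum_div]
  refine sum_congr rfl fun y _ => ?_
  unfold cnd
  split_ifs
  · ring
  · simp

theorem ag_obs_univ (S : Finset (Finset ι)) (ω ω' : Cf ι n) :
    Ag xv (obs S univ) ω' ω ↔ ω'.1 = ω.1 ∧ ∀ K ∈ S, ω'.2 K = ω.2 K := by
  unfold Ag obs
  constructor
  · intro h
    refine ⟨funext fun i => h (none, i) (by simp), fun K hK => funext fun i => h (some K, i) ?_⟩
    simp [hK]
  · rintro ⟨h1, h2⟩ ⟨o, i⟩ hc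
    rw [mem_product, mem_insert, mem_image] at hc
    rcases hc.1 with h | ⟨K, hK, h⟩
    · simp only at h; subst h; exact congrFun h1 i
    · simp only at h; subst h; exact congrFun (h2 K hK) i

theorem ms_obs_univ (hμ : ∀ a, 0 ≤ μ a) (S : Finset (Finset ι)) (ω : Cf ι n) :
    ms (WW μ) xv (obs S univ) ω = μ ω.1 * ∏ K ∈ S, cnd μ cv K ω.1 (ω.2 K) := by
  have h := WW_int hμ S (fun a => if a = ω.1 then 1 else 0)
    (fun K _ y => if y = ω.2 K then 1 else 0)
  have h2 : ms (WW μ) xv (obs S univ) ω = ∑ ω' : Cf ι n, WW μ ω' *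
      ((if ω'.1 = ω.1 then 1 else 0) * ∏ K ∈ S, (if ω'.2 K = ω.2 K then (1:ℝ) else 0)) := by
    unfold ms
    refine sum_congr rfl fun ω' _ => ?_
    rw [Finset.prod_ite_zero]
    simp only [ag_obs_univ]
    by_cases h1 : ω'.1 = ω.1
    · by_cases h2 : ∀ K ∈ S, ω'.2 K = ω.2 K
      · simp [h1]
      · simp [h1]
    · simp [h1]
  rw [h2, h]
  rw [Finset.sum_eq_single ω.1]
  · simp
  · intro a _ ha; simp [ha]
  · intro h; exact absurd (mem_univ _) h

theorem WW_ne (ω : Cf ι n) (h : WW μ ω ≠ 0) :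
    μ ω.1 ≠ 0 ∧ ∀ K, μ (ω.2 K) ≠ 0 ∧ Ag cv K (ω.2 K) ω.1 := by
  unfold WW at h
  rw [mul_ne_zero_iff, Finset.prod_ne_zero_iff] at h
  refine ⟨h.1, fun K => ?_⟩
  have hK := h.2 K (mem_univ K)
  unfold cnd at hK
  by_cases h3 : Ag cv K (ω.2 K) ω.1
  · rw [if_pos h3] at hK
    exact ⟨fun h0 => hK (by rw [h0, zero_div]), h3⟩
  · rw [if_neg h3] at hK; exact absurd rfl hK

theorem ms_cv_univ (a : ι → Fin n) : ms μ cv univ a = μ a := by
  unfold ms
  rw [Finset.sum_eq_single a]
  · rw [if_pos]; exact Ag.rfl'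
  · intro b _ hb; rw [if_neg]; intro h; exact hb (funext fun i => h i (mem_univ i))
  · intro h; exact absurd (mem_univ _) h

/-- entropy of the full system -/
theorem HH_full (hμ : ∀ a, 0 ≤ μ a) (S : Finset (Finset ι)) :
    HH (WW μ) xv (obs S univ) =
      HH μ cv univ + ∑ K ∈ S, (HH μ cv univ - HH μ cv K) := by
  have h1 : ∀ ω : Cf ι n, WW μ ω * Real.log (ms (WW μ) xv (obs S univ) ω) =
      WW μ ω * Real.log (μ ω.1) + ∑ K ∈ S, (WW μ ω * Real.log (μ (ω.2 K)) -
        WW μ ω * Real.log (ms μ cv K ω.1)) := by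
    intro ω
    by_cases h : WW μ ω = 0
    · simp [h]
    obtain ⟨h0, hK⟩ := WW_ne ω h
    have hc : ∀ K ∈ S, cnd μ cv K ω.1 (ω.2 K) ≠ 0 := by
      intro K _
      unfold cnd
      rw [if_pos (hK K).2]
      exact div_ne_zero (hK K).1 (ms_pos hμ K h0).ne'
    rw [ms_obs_univ hμ, Real.log_mul h0 (prod_ne_zero_iff.2 hc), Real.log_prod hc, mul_add,
      mul_sum]
    congr 1
    refine sum_congr rfl fun K _ => ?_
    unfold cnd
    rw [if_pos (hK K).2, Real.log_div (hK K).1 (ms_pos hμ K h0).ne']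
    ring
  unfold HH
  simp only [h1]
  rw [sum_add_distrib, sum_comm, WW_fst hμ fun a => Real.log (μ a)]
  simp only [sum_sub_distrib]
  have h2 : ∀ K, ∑ ω : Cf ι n, WW μ ω * Real.log (μ (ω.2 K)) = ∑ a, μ a * Real.log (μ a) :=
    fun K => WW_snd hμ K fun a => Real.log (μ a)
  have h3 : ∀ K, ∑ ω : Cf ι n, WW μ ω * Real.log (ms μ cv K ω.1) =
      ∑ a, μ a * Real.log (ms μ cv K a) := fun K => WW_fst hμ fun a => Real.log (ms μ cv K a)
  simp only [h2, h3, ms_cv_univ]
  simp only [sum_const, sum_neg_distrib]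
  rw [neg_add, ← sub_eq_add_neg]
  simp only [smul_neg]
  ring

theorem push_fst (hμ : ∀ a, 0 ≤ μ a) : push (WW μ) (Prod.fst : Cf ι n → ι → Fin n) = μ := by
  funext a
  have h2 : push (WW μ) (Prod.fst : Cf ι n → ι → Fin n) a =
      ∑ ω : Cf ι n, WW μ ω * (if ω.1 = a then (1:ℝ) else 0) := by
    unfold push
    refine sum_congr rfl fun ω _ => ?_
    by_cases h : ω.1 = a
    · rw [if_pos h, if_pos h, mul_one]
    · rw [if_neg h, if_neg h, mul_zero]
  rw [h2, WW_fst hμ fun y => if y = a then (1:ℝ) else 0]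
  simp

/-- entropy of coordinates of the root -/
theorem HH_root (hμ : ∀ a, 0 ≤ μ a) (T : Finset ι) : HH (WW μ) xv (obs ∅ T) = HH μ cv T := by
  conv_rhs => rw [← push_fst hμ]
  rw [push_HH]
  have : (fun ω : Cf ι n => cv ω.1) = fun ω i => xv ω (none, i) := rfl
  rw [this, HH_comp (ξ := xv) (fun i => (none, i))]
  congr 1
  ext ⟨o, i⟩
  simp [obs, and_comm, eq_comm]

/-- probability that a copy takes the value `c` at `i`, given the root -/
noncomputable def qq (μ : (ι → Fin n) → ℝ) (K : Finset ι) (i : ι) (a : ι → Fin n)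
    (c : Fin n) : ℝ := ∑ y : ι → Fin n, if y i = c then cnd μ cv K a y else 0

/-- largest conditional probability of a value at `i` -/
noncomputable def pp (μ : (ι → Fin n) → ℝ) (K : Finset ι) (i : ι) (a : ι → Fin n) : ℝ :=
  ⨆ c : Fin n, qq μ K i a c

theorem qq_nonneg (hμ : ∀ a, 0 ≤ μ a) (K : Finset ι) (i : ι) (a : ι → Fin n) (c : Fin n) :
    0 ≤ qq μ K i a c :=
  sum_nonneg fun y _ => by split_ifs; exacts [cnd_nonneg hμ _ _ _, le_rfl]

theorem qq_le_pp (K : Finset ι) (i : ι) (a : ι → Fin n) (c : Fin n) :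
    qq μ K i a c ≤ pp μ K i a :=
  le_ciSup (f := fun c => qq μ K i a c) (Set.finite_range _).bddAbove c

theorem qq_sum (hμ : ∀ a, 0 ≤ μ a) (K : Finset ι) (i : ι) {a : ι → Fin n} (ha : μ a ≠ 0) :
    ∑ c, qq μ K i a c = 1 := by
  unfold qq
  rw [sum_comm, ← cnd_sum (ξ := cv) hμ K ha]
  refine sum_congr rfl fun y _ => ?_
  simp

/-- collisions of two copies -/
theorem coll (hμ : ∀ a, 0 ≤ μ a) (K₁ K₂ : Finset ι) (h12 : K₁ ≠ K₂) (i : ι) :
    ∑ ω : Cf ι n, (if ω.2 K₁ i = ω.2 K₂ i then WW μ ω else 0) ≤ ∑ a, μ a * pp μ K₁ i a := by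
  have h1 : ∀ ω : Cf ι n, (if ω.2 K₁ i = ω.2 K₂ i then WW μ ω else 0) =
      ∑ c : Fin n, WW μ ω * (1 * ∏ K ∈ {K₁, K₂}, (if ω.2 K i = c then (1:ℝ) else 0)) := by
    intro ω
    simp only [prod_pair h12]
    by_cases h : ω.2 K₁ i = ω.2 K₂ i
    · rw [if_pos h, Finset.sum_eq_single (ω.2 K₁ i)]
      · simp [h]
      · intro c _ hc; simp [Ne.symm hc]
      · intro h; exact absurd (mem_univ _) h
    · rw [if_neg h]
      refine (sum_eq_zero fun c _ => ?_).symm
      by_cases h' : ω.2 K₁ i = c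
      · have : ω.2 K₂ i ≠ c := fun h'' => h (h'.trans h''.symm)
        simp [this]
      · simp [h']
  simp only [h1]
  rw [sum_comm]
  have h2 : ∀ c : Fin n, ∑ ω : Cf ι n, WW μ ω *
      (1 * ∏ K ∈ {K₁, K₂}, (if ω.2 K i = c then (1:ℝ) else 0)) =
      ∑ a, μ a * (qq μ K₁ i a c * qq μ K₂ i a c) := by
    intro c
    rw [WW_int hμ {K₁, K₂} (fun _ => 1) (fun _ _ y => if y i = c then 1 else 0)]
    refine sum_congr rfl fun a _ => ?_
    rw [prod_pair h12, one_mul]
    unfold qq
    simp only [mul_ite, mul_one, mul_zero]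
  simp only [h2]
  rw [sum_comm]
  refine sum_le_sum fun a _ => ?_
  rw [← mul_sum]
  by_cases ha : μ a = 0
  · simp [ha]
  refine mul_le_mul_of_nonneg_left ?_ (hμ a)
  calc ∑ c, qq μ K₁ i a c * qq μ K₂ i a c ≤ ∑ c, pp μ K₁ i a * qq μ K₂ i a c :=
        sum_le_sum fun c _ => mul_le_mul_of_nonneg_right (qq_le_pp _ _ _ _)
          (qq_nonneg hμ _ _ _ _)
    _ = pp μ K₁ i a := by rw [← mul_sum, qq_sum hμ K₂ i ha, mul_one]

/-- the conditional probability is attained at a value which depends only on the coordinates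
in `K` -/
theorem pp_cs (hμ : ∀ a, 0 ≤ μ a) (hn : 1 ≤ n) (K : Finset ι) (i : ι) :
    ∃ cs : (ι → Fin n) → Fin n, (∀ a b : ι → Fin n, Ag cv K a b → cs a = cs b) ∧
      ∑ a, μ a * (if a i = cs a then (1:ℝ) else 0) = ∑ a, μ a * pp μ K i a := by
  have : Nonempty (Fin n) := ⟨⟨0, hn⟩⟩
  -- a canonical maximiser
  let m : (Fin n → ℝ) → Fin n := fun f => Classical.choose (exists_eq_ciSup_of_finite (f := f))
  have hm : ∀ f : Fin n → ℝ, f (m f) = ⨆ c, f c :=
    fun f => Classical.choose_spec (exists_eq_ciSup_of_finite (f := f))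
  let cs : (ι → Fin n) → Fin n := fun a => m (qq μ K i a)
  have hqc : ∀ a b : ι → Fin n, Ag cv K a b → qq μ K i a = qq μ K i b := by
    intro a b h
    funext c
    unfold qq
    refine sum_congr rfl fun y _ => ?_
    unfold cnd
    rw [ms_congr h]
    have : Ag cv K y a ↔ Ag cv K y b := ⟨fun h' => h'.trans h, fun h' => h'.trans h.symm⟩
    simp only [this]
  have hcs : ∀ a b : ι → Fin n, Ag cv K a b → cs a = cs b := fun a b h => by
    simp only [cs, hqc a b h]
  refine ⟨cs, hcs, ?_⟩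
  rw [← sum_atom (ξ := cv) hμ K fun a => if a i = cs a then (1:ℝ) else 0]
  refine sum_congr rfl fun a _ => ?_
  congr 1
  rw [show pp μ K i a = qq μ K i a (cs a) from (hm _).symm]
  unfold qq
  rw [sum_div]
  refine sum_congr rfl fun b _ => ?_
  by_cases hb : Ag cv K b a
  · rw [if_pos hb, hcs b a hb]
    unfold cnd
    rw [if_pos hb]
    by_cases h : b i = cs a
    · rw [if_pos h, if_pos h]; simp
    · rw [if_neg h, if_neg h]; simp
  · rw [if_neg hb]; unfold cnd; rw [if_neg hb]; simp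

/-- the largest conditional probability is controlled by the conditional entropy -/
theorem pp_ent (hμ : ∀ a, 0 ≤ μ a) (h1 : ∑ a, μ a = 1) (hn : 1 ≤ n) (K : Finset ι) (i : ι) :
    Real.log n * ∑ a, μ a * pp μ K i a ≤
      Real.log n + Real.log 2 - (HH μ cv (insert i K) - HH μ cv K) := by
  have hn' : (0:ℝ) < n := by exact_mod_cast hn
  obtain ⟨cs, hcs, h2⟩ := pp_cs hμ hn K i
  have g := gibbs (ξ := cv) hμ h1 K i (fun a x => if x = cs a then 1 / 2 else 1 / (2 * n))
    (fun a b h => by simp only [hcs a b h]) (fun a x => by split_ifs <;> positivity)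
    (fun a => by
      calc ∑ x : Fin n, (if x = cs a then (1:ℝ) / 2 else 1 / (2 * n)) ≤
          ∑ x : Fin n, ((if x = cs a then (1:ℝ) / 2 else 0) + 1 / (2 * n)) := by
            refine sum_le_sum fun x _ => ?_
            split_ifs
            · have : (0:ℝ) ≤ 1 / (2 * n) := by positivity
              linarith
            · simp
        _ = 1 := by
            rw [sum_add_distrib]
            simp
            field_simp
            norm_num) (fun a _ => by split_ifs <;> positivity)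
  have h3 : -∑ a : ι → Fin n,
      μ a * Real.log (if cv a i = cs a then (1:ℝ) / 2 else 1 / (2 * n)) =
      Real.log 2 + Real.log n * (1 - ∑ a, μ a * pp μ K i a) := by
    rw [← h2]
    have : ∀ a : ι → Fin n, μ a * Real.log (if cv a i = cs a then (1:ℝ) / 2 else 1 / (2 * n)) =
        -(Real.log 2 + Real.log n) * μ a +
          Real.log n * (μ a * (if a i = cs a then (1:ℝ) else 0)) := by
      intro a
      by_cases h : a i = cs a
      · rw [if_pos h, if_pos (show cv a i = cs a from h), one_div, Real.log_inv]; ring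
      · rw [if_neg h, if_neg (show ¬ cv a i = cs a from h), one_div, Real.log_inv,
          Real.log_mul (by norm_num) hn'.ne']
        ring
    simp only [this]
    rw [sum_add_distrib, ← mul_sum, ← mul_sum, h1]
    ring
  rw [h3] at g
  linarith

end Pool.Agent.H48.Sp
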