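import Mathlib

/-! Entropy of families of finite random variables: `HH p ξ S` is the Shannon entropy (natural
logarithm) of the variables `ξ · i`, `i ∈ S`, under the weights `p`.  (The first part follows the
library module `R_pool_sql_team_ae5b0c61/H37/Ki1`.) -/

set_option autoImplicit false
set_option linter.unusedSectionVars false

namespace Pool.Agent.H48.Sp

open Finset Classical

variable {Ω ι β : Type} [Fintype Ω]

/-- agreement on `S` -/
def Ag (ξ : Ω → ι → β) (S : Finset ι) (a b : Ω) : Prop := ∀ i ∈ S, ξ a i = ξ b i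

/-- mass of the atom of `a` -/
noncomputable def ms (p : Ω → ℝ) (ξ : Ω → ι → β) (S : Finset ι) (a : Ω) : ℝ :=
  ∑ b, if Ag ξ S b a then p b else 0

/-- entropy of the variables with index in `S` -/
noncomputable def HH (p : Ω → ℝ) (ξ : Ω → ι → β) (S : Finset ι) : ℝ :=
  -∑ a, p a * Real.log (ms p ξ S a)

variable {p : Ω → ℝ} {ξ : Ω → ι → β}

omit [Fintype Ω] in
theorem Ag.symm {S : Finset ι} {a b : Ω} (h : Ag ξ S a b) : Ag ξ S b a :=
  fun i hi => (h i hi).symm

omit [Fintype Ω] in
theorem Ag.trans {S : Finset ι} {a b c : Ω} (h : Ag ξ S a b) (h' : Ag ξ S b c) : Ag ξ S a c :=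
  fun i hi => (h i hi).trans (h' i hi)

omit [Fintype Ω] in
theorem Ag.mono {S T : Finset ι} (hT : T ⊆ S) {a b : Ω} (h : Ag ξ S a b) : Ag ξ T a b :=
  fun i hi => h i (hT hi)

omit [Fintype Ω] in
theorem Ag.rfl' {S : Finset ι} {a : Ω} : Ag ξ S a a := fun _ _ => rfl

theorem ms_congr {S : Finset ι} {a b : Ω} (h : Ag ξ S a b) : ms p ξ S a = ms p ξ S b :=
  sum_congr rfl fun _ _ => if_congr ⟨fun e => e.trans h, fun e => e.trans h.symm⟩ rfl rfl

theorem le_ms (hp : ∀ a, 0 ≤ p a) (S : Finset ι) (a : Ω) : p a ≤ ms p ξ S a := by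
  refine le_trans (le_of_eq ?_) (single_le_sum (f := fun b => if Ag ξ S b a then p b else 0)
    (fun b _ => by split_ifs <;> simp [hp]) (mem_univ a))
  exact (if_pos fun _ _ => rfl).symm

theorem ms_nonneg (hp : ∀ a, 0 ≤ p a) (S : Finset ι) (a : Ω) : 0 ≤ ms p ξ S a :=
  (hp a).trans (le_ms hp S a)

theorem ms_pos (hp : ∀ a, 0 ≤ p a) (S : Finset ι) {a : Ω} (h : p a ≠ 0) : 0 < ms p ξ S a :=
  (lt_of_le_of_ne (hp a) (Ne.symm h)).trans_le (le_ms hp S a)

theorem ms_le_one (hp : ∀ a, 0 ≤ p a) (h1 : ∑ a, p a = 1) (S : Finset ι) (a : Ω) :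
    ms p ξ S a ≤ 1 := by
  rw [← h1]
  exact sum_le_sum fun b _ => by split_ifs <;> simp [hp]

theorem ms_anti (hp : ∀ a, 0 ≤ p a) {S T : Finset ι} (h : T ⊆ S) (a : Ω) :
    ms p ξ S a ≤ ms p ξ T a := by
  refine sum_le_sum fun b _ => ?_
  by_cases hb : Ag ξ S b a
  · rw [if_pos hb, if_pos (hb.mono h)]
  · rw [if_neg hb]; split_ifs <;> simp [hp]

theorem cls (hp : ∀ a, 0 ≤ p a) (S : Finset ι) (Q : Ω → Prop) [DecidablePred Q]
    (hQ : ∀ a b, Q a → Q b → Ag ξ S a b) : ∑ a, (if Q a then p a / ms p ξ S a else 0) ≤ 1 := by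
  by_cases h : ∃ a, Q a
  · obtain ⟨a0, h0⟩ := h
    refine le_trans (sum_le_sum (g := fun a => (if Ag ξ S a a0 then p a else 0) / ms p ξ S a0)
      fun a _ => ?_) ?_
    · split_ifs with h1 h2 h3
      · rw [ms_congr h2]
      · exact absurd (hQ a a0 h1 h0) h2
      · exact div_nonneg (hp a) (ms_nonneg hp _ _)
      · simp
    · rw [← sum_div]; exact div_self_le_one _
  · push Not at h; simp [h]

/-- double counting: averaging over the atoms -/
theorem sum_atom (hp : ∀ a, 0 ≤ p a) (S : Finset ι) (F : Ω → ℝ) :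
    ∑ a, p a * ((∑ b, if Ag ξ S b a then p b * F b else 0) / ms p ξ S a) = ∑ b, p b * F b := by
  have : ∀ a, p a * ((∑ b, if Ag ξ S b a then p b * F b else 0) / ms p ξ S a) =
      ∑ b, (if Ag ξ S a b then p a else 0) * (p b * F b / ms p ξ S b) := by
    intro a
    rw [sum_div, mul_sum]
    refine sum_congr rfl fun b _ => ?_
    by_cases h : Ag ξ S b a
    · rw [if_pos h, if_pos h.symm, ms_congr h]
    · rw [if_neg h, if_neg fun h' => h h'.symm]; simp
  simp only [this]
  rw [sum_comm]
  refine sum_congr rfl fun b _ => ?_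
  rw [← sum_mul]
  by_cases hb : p b = 0
  · simp [hb]
  · have := (ms_pos (ξ := ξ) hp S hb).ne'
    change ms p ξ S b * _ = _
    field_simp

variable [DecidableEq ι]

theorem submod (hp : ∀ a, 0 ≤ p a) (h1 : ∑ a, p a = 1) (S T U V : Finset ι)
    (hU : U = S ∪ T) (hV : V = S ∩ T) : HH p ξ U + HH p ξ V ≤ HH p ξ S + HH p ξ T := by
  have key : ∑ w, p w * (ms p ξ S w * ms p ξ T w / (ms p ξ U w * ms p ξ V w)) ≤ 1 := by
    calc _ = ∑ w, ∑ a, ∑ b, (if Ag ξ V b a then p a * p b / ms p ξ V a else 0) *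
          if Ag ξ S a w ∧ Ag ξ T b w then p w / ms p ξ U w else 0 := by
          refine sum_congr rfl fun w _ => ?_
          rw [ms, ms, sum_mul_sum, sum_div, mul_sum]
          refine sum_congr rfl fun a _ => ?_
          rw [sum_div, mul_sum]
          refine sum_congr rfl fun b _ => ?_
          by_cases ha : Ag ξ S a w
          · by_cases hb : Ag ξ T b w
            · have e1 : Ag ξ V a w := fun i hi => ha i (mem_inter.1 (hV ▸ hi)).1
              have e2 : Ag ξ V b w := fun i hi => hb i (mem_inter.1 (hV ▸ hi)).2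
              simp only [ha, hb, e2.trans e1.symm, if_true, and_self, ms_congr e1]
              ring
            · simp [hb]
          · simp [ha]
      _ = ∑ a, ∑ b, (if Ag ξ V b a then p a * p b / ms p ξ V a else 0) *
          ∑ w, if Ag ξ S a w ∧ Ag ξ T b w then p w / ms p ξ U w else 0 := by
          rw [sum_comm]
          refine sum_congr rfl fun a _ => ?_
          rw [sum_comm]
          simp only [mul_sum]
      _ ≤ ∑ a, ∑ b, (if Ag ξ V b a then p a * p b / ms p ξ V a else 0) := by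
          refine sum_le_sum fun a _ => sum_le_sum fun b _ => mul_le_of_le_one_right ?_
            (cls hp U _ fun w w' h h' i hi => ?_)
          · split_ifs
            · exact div_nonneg (mul_nonneg (hp a) (hp b)) (ms_nonneg hp _ _)
            · exact le_rfl
          · rcases mem_union.1 (hU ▸ hi) with hi | hi
            · exact (h.1.symm.trans h'.1) i hi
            · exact (h.2.symm.trans h'.2) i hi
      _ ≤ ∑ a, p a := by
          refine sum_le_sum fun a _ => ?_
          have : ∑ b, (if Ag ξ V b a then p a * p b / ms p ξ V a else 0) =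
              p a * (ms p ξ V a / ms p ξ V a) := by
            conv_rhs => rw [div_eq_mul_inv]; enter [2, 1]; rw [ms]
            rw [sum_mul, mul_sum]
            refine sum_congr rfl fun b _ => ?_
            split_ifs <;> ring
          rw [this]
          exact mul_le_of_le_one_right (hp a) (div_self_le_one _)
      _ = 1 := h1
  have : ∑ w, (p w * Real.log (ms p ξ S w) + p w * Real.log (ms p ξ T w) -
      p w * Real.log (ms p ξ U w) - p w * Real.log (ms p ξ V w)) ≤
      ∑ w, (p w * (ms p ξ S w * ms p ξ T w / (ms p ξ U w * ms p ξ V w)) - p w) := by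
    refine sum_le_sum fun w _ => ?_
    rcases (hp w).eq_or_lt with h | h
    · simp [← h]
    have pos : ∀ A, 0 < ms p ξ A w := fun A => h.trans_le (le_ms hp A w)
    have := Real.log_le_sub_one_of_pos
      (div_pos (mul_pos (pos S) (pos T)) (mul_pos (pos U) (pos V)))
    rw [Real.log_div (mul_pos (pos S) (pos T)).ne' (mul_pos (pos U) (pos V)).ne',
      Real.log_mul (pos S).ne' (pos T).ne', Real.log_mul (pos U).ne' (pos V).ne'] at this
    nlinarith
  simp only [sum_sub_distrib, sum_add_distrib] at this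
  unfold HH
  linarith

theorem HH_mono (hp : ∀ a, 0 ≤ p a) {S T : Finset ι} (h : T ⊆ S) : HH p ξ T ≤ HH p ξ S := by
  unfold HH
  refine neg_le_neg (sum_le_sum fun a _ => ?_)
  rcases (hp a).eq_or_lt with h0 | h0
  · simp [← h0]
  · exact mul_le_mul_of_nonneg_left (Real.log_le_log (ms_pos hp S h0.ne') (ms_anti hp h a)) h0.le

theorem HH_empty (h1 : ∑ a, p a = 1) : HH p ξ ∅ = 0 := by
  have : ∀ a, ms p ξ ∅ a = 1 := fun a => by simp [ms, Ag, h1]
  simp [HH, this]

theorem HH_nonneg (hp : ∀ a, 0 ≤ p a) (h1 : ∑ a, p a = 1) (S : Finset ι) : 0 ≤ HH p ξ S := by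
  rw [← HH_empty (ξ := ξ) h1]; exact HH_mono hp (empty_subset _)

/-- submodularity in the form of decreasing increments -/
theorem HH_incr (hp : ∀ a, 0 ≤ p a) (h1 : ∑ a, p a = 1) {S T : Finset ι} (U : Finset ι)
    (h : S ⊆ T) : HH p ξ (T ∪ U) - HH p ξ T ≤ HH p ξ (S ∪ U) - HH p ξ S := by
  have h2 := submod (ξ := ξ) hp h1 T (S ∪ U) (T ∪ U) (T ∩ (S ∪ U))
    (by ext i; simp only [mem_union]; constructor
        · rintro (h' | h') <;> tauto
        · rintro (h' | h' | h')
          · exact Or.inl h'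
          · exact Or.inl (h h')
          · exact Or.inr h') rfl
  have h3 : HH p ξ S ≤ HH p ξ (T ∩ (S ∪ U)) :=
    HH_mono hp (subset_inter h subset_union_left)
  linarith

/-- Gibbs inequality -/
theorem gibbs {n : ℕ} {ξ : Ω → ι → Fin n} (hp : ∀ a, 0 ≤ p a) (h1 : ∑ a, p a = 1)
    (S : Finset ι) (i : ι) (q : Ω → Fin n → ℝ) (hq : ∀ a b, Ag ξ S a b → q a = q b)
    (hq0 : ∀ a x, 0 ≤ q a x) (hq1 : ∀ a, ∑ x, q a x ≤ 1) (hqp : ∀ a, p a ≠ 0 → 0 < q a (ξ a i)) :
    HH p ξ (insert i S) - HH p ξ S ≤ -∑ a, p a * Real.log (q a (ξ a i)) := by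
  have key : ∑ w, p w * (q w (ξ w i) * ms p ξ S w / ms p ξ (insert i S) w) ≤ 1 := by
    calc _ = ∑ w, ∑ a, ∑ x, (p a * q a x) *
          if Ag ξ S w a ∧ ξ w i = x then p w / ms p ξ (insert i S) w else 0 := by
          refine sum_congr rfl fun w _ => ?_
          rw [ms, mul_sum, sum_div, mul_sum]
          refine sum_congr rfl fun a _ => ?_
          rw [Finset.sum_eq_single (ξ w i)]
          · by_cases ha : Ag ξ S a w
            · rw [if_pos ha, if_pos ⟨ha.symm, rfl⟩, hq a w ha]; ring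
            · rw [if_neg ha, if_neg fun h => ha h.1.symm]; simp
          · intro x _ hx; rw [if_neg fun h => hx h.2.symm, mul_zero]
          · intro h; exact absurd (mem_univ _) h
      _ = ∑ a, ∑ x, (p a * q a x) *
          ∑ w, if Ag ξ S w a ∧ ξ w i = x then p w / ms p ξ (insert i S) w else 0 := by
          rw [sum_comm]
          refine sum_congr rfl fun a _ => ?_
          rw [sum_comm]
          simp only [mul_sum]
      _ ≤ ∑ a, ∑ x, (p a * q a x) := by
          refine sum_le_sum fun a _ => sum_le_sum fun x _ => mul_le_of_le_one_right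
            (mul_nonneg (hp a) (hq0 a x)) (cls hp (insert i S) _ fun w w' h h' j hj => ?_)
          rcases mem_insert.1 hj with rfl | hj
          · rw [h.2, h'.2]
          · exact (h.1.trans h'.1.symm) j hj
      _ ≤ ∑ a, p a := by
          refine sum_le_sum fun a _ => ?_
          rw [← mul_sum]; exact mul_le_of_le_one_right (hp a) (hq1 a)
      _ = 1 := h1
  have : ∑ w, (p w * Real.log (q w (ξ w i)) + p w * Real.log (ms p ξ S w) -
      p w * Real.log (ms p ξ (insert i S) w)) ≤
      ∑ w, (p w * (q w (ξ w i) * ms p ξ S w / ms p ξ (insert i S) w) - p w) := by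
    refine sum_le_sum fun w _ => ?_
    rcases (hp w).eq_or_lt with h | h
    · simp [← h]
    have pos : ∀ A, 0 < ms p ξ A w := fun A => h.trans_le (le_ms hp A w)
    have hq' := hqp w h.ne'
    have := Real.log_le_sub_one_of_pos (div_pos (mul_pos hq' (pos S)) (pos (insert i S)))
    rw [Real.log_div (mul_pos hq' (pos S)).ne' (pos (insert i S)).ne',
      Real.log_mul hq'.ne' (pos S).ne'] at this
    nlinarith
  simp only [sum_sub_distrib, sum_add_distrib] at this
  unfold HH
  linarith

theorem HH_insert_le {n : ℕ} {ξ : Ω → ι → Fin n} (hp : ∀ a, 0 ≤ p a) (h1 : ∑ a, p a = 1)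
    (S : Finset ι) (i : ι) : HH p ξ (insert i S) ≤ HH p ξ S + Real.log n := by
  rcases Nat.eq_zero_or_pos n with rfl | hn
  · exfalso
    have : IsEmpty Ω := ⟨fun a => (ξ a i).elim0⟩
    simp at h1
  have hn' : (0:ℝ) < n := by exact_mod_cast hn
  have := gibbs (ξ := ξ) hp h1 S i (fun _ _ => (1:ℝ) / n) (fun _ _ _ => rfl)
    (fun _ _ => by positivity) (fun a => by simp [hn'.ne']) (fun _ _ => by positivity)
  rw [← sum_mul, h1, one_mul, one_div, Real.log_inv, neg_neg] at this
  linarith

theorem HH_union_le {n : ℕ} {ξ : Ω → ι → Fin n} (hp : ∀ a, 0 ≤ p a) (h1 : ∑ a, p a = 1)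
    (S T : Finset ι) : HH p ξ (S ∪ T) ≤ HH p ξ S + T.card * Real.log n := by
  induction T using Finset.induction_on with
  | empty => simp
  | insert i T hi ih =>
    rw [union_insert, card_insert_of_notMem hi]
    have := HH_insert_le (ξ := ξ) hp h1 (S ∪ T) i
    push_cast; linarith

theorem HH_le {n : ℕ} {ξ : Ω → ι → Fin n} (hp : ∀ a, 0 ≤ p a) (h1 : ∑ a, p a = 1)
    (T : Finset ι) : HH p ξ T ≤ T.card * Real.log n := by
  have := HH_union_le (ξ := ξ) hp h1 ∅ T
  rw [empty_union, HH_empty h1] at this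
  linarith

/-- adding variables which are almost surely determined does not change the entropy -/
theorem HH_congr_as {S T : Finset ι}
    (h : ∀ a b, p a ≠ 0 → p b ≠ 0 → (Ag ξ S a b ↔ Ag ξ T a b)) : HH p ξ S = HH p ξ T := by
  unfold HH
  congr 1
  refine sum_congr rfl fun a _ => ?_
  by_cases ha : p a = 0
  · simp [ha]
  · congr 2
    refine sum_congr rfl fun b _ => ?_
    by_cases hb : p b = 0
    · simp [hb]
    · simp only [h b a hb ha]

/-- image weights -/
noncomputable def push {Ω' : Type} (p : Ω → ℝ) (φ : Ω → Ω') (y : Ω') : ℝ :=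
  ∑ a, if φ a = y then p a else 0

theorem push_nonneg {Ω' : Type} (hp : ∀ a, 0 ≤ p a) (φ : Ω → Ω') (y : Ω') : 0 ≤ push p φ y :=
  sum_nonneg fun a _ => by split_ifs <;> simp [hp]

theorem push_ne {Ω' : Type} (φ : Ω → Ω') (y : Ω') (h : push p φ y ≠ 0) :
    ∃ a, φ a = y ∧ p a ≠ 0 := by
  obtain ⟨a, _, ha⟩ := exists_ne_zero_of_sum_ne_zero h
  by_cases h' : φ a = y
  · exact ⟨a, h', by simpa [h'] using ha⟩
  · simp [h'] at ha

theorem push_sum {Ω' : Type} [Fintype Ω'] (φ : Ω → Ω') (F : Ω' → ℝ) :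
    ∑ y, push p φ y * F y = ∑ a, p a * F (φ a) := by
  unfold push
  simp only [sum_mul]
  rw [sum_comm]
  refine sum_congr rfl fun a _ => ?_
  rw [Finset.sum_eq_single (φ a)]
  · simp
  · intro y _ hy; simp [Ne.symm hy]
  · intro h; exact absurd (mem_univ _) h

theorem push_ms {Ω' ι' β' : Type} [Fintype Ω'] (φ : Ω → Ω') (ξ' : Ω' → ι' → β') (S : Finset ι')
    (y : Ω') : ms (push p φ) ξ' S y = ∑ a, if Ag ξ' S (φ a) y then p a else 0 := by
  have := push_sum (p := p) φ (fun z => if Ag ξ' S z y then (1:ℝ) else 0)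
  simp only [mul_ite, mul_one, mul_zero] at this
  exact this

theorem push_HH {Ω' ι' β' : Type} [Fintype Ω'] (φ : Ω → Ω') (ξ' : Ω' → ι' → β')
    (S : Finset ι') : HH (push p φ) ξ' S = HH p (fun a => ξ' (φ a)) S := by
  unfold HH
  rw [push_sum φ (fun y => Real.log (ms (push p φ) ξ' S y))]
  congr 1
  refine sum_congr rfl fun a _ => ?_
  rw [push_ms]; rfl

/-- relabelling the indices -/
theorem HH_comp {ι' : Type} (e : ι' → ι) (T : Finset ι') :
    HH p (fun a i => ξ a (e i)) T = HH p ξ (T.image e) := by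
  unfold HH ms
  congr 1
  refine sum_congr rfl fun a _ => ?_
  congr 2
  refine sum_congr rfl fun b _ => ?_
  refine if_congr ?_ rfl rfl
  unfold Ag
  simp

/-- conditional weights -/
noncomputable def cnd (p : Ω → ℝ) (ξ : Ω → ι → β) (S : Finset ι) (a b : Ω) : ℝ :=
  if Ag ξ S b a then p b / ms p ξ S a else 0

theorem cnd_nonneg (hp : ∀ a, 0 ≤ p a) (S : Finset ι) (a b : Ω) : 0 ≤ cnd p ξ S a b := by
  unfold cnd; split_ifs
  · exact div_nonneg (hp _) (ms_nonneg hp _ _)
  · exact le_rfl

theorem cnd_sum (hp : ∀ a, 0 ≤ p a) (S : Finset ι) {a : Ω} (h : p a ≠ 0) :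
    ∑ b, cnd p ξ S a b = 1 := by
  have : ∀ b, cnd p ξ S a b = (if Ag ξ S b a then p b else 0) / ms p ξ S a := by
    intro b; unfold cnd; split_ifs <;> simp
  simp only [this]
  rw [← sum_div]; exact div_self (ms_pos hp S h).ne'

theorem cnd_HH (hp : ∀ a, 0 ≤ p a) (S T : Finset ι) :
    ∑ a, p a * HH (cnd p ξ S a) ξ T = HH p ξ (S ∪ T) - HH p ξ S := by
  have h1 : ∀ a, p a * HH (cnd p ξ S a) ξ T =
      p a * ((∑ b, if Ag ξ S b a then p b * (-(Real.log (ms p ξ (S ∪ T) b) -
        Real.log (ms p ξ S b))) else 0) / ms p ξ S a) := by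
    intro a
    by_cases ha : p a = 0
    · simp [ha]
    congr 1
    unfold HH
    rw [← sum_neg_distrib, sum_div]
    refine sum_congr rfl fun b _ => ?_
    by_cases hb : Ag ξ S b a
    · by_cases hpb : p b = 0
      · simp [cnd, hpb]
      rw [if_pos hb]
      have e : ms (cnd p ξ S a) ξ T b = ms p ξ (S ∪ T) b / ms p ξ S a := by
        unfold ms cnd
        rw [sum_div]
        refine sum_congr rfl fun c _ => ?_
        by_cases hc : Ag ξ T c b
        · by_cases hc' : Ag ξ S c a
          · rw [if_pos hc, if_pos hc', if_pos]; · rfl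
            intro i hi
            rcases mem_union.1 hi with hi | hi
            · exact (hc'.trans hb.symm) i hi
            · exact hc i hi
          · rw [if_pos hc, if_neg hc', if_neg, zero_div]
            intro h; exact hc' ((h.mono subset_union_left).trans hb)
        · rw [if_neg hc, if_neg, zero_div]
          intro h; exact hc (h.mono subset_union_right)
      rw [e, Real.log_div (ms_pos hp _ hpb).ne' (ms_pos hp S ha).ne', ms_congr hb]
      unfold cnd
      rw [if_pos hb]; ring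
    · rw [if_neg hb]; unfold cnd; rw [if_neg hb]; simp
  simp only [h1]
  rw [sum_atom hp S]
  unfold HH
  simp only [mul_neg, mul_sub, sum_neg_distrib, sum_sub_distrib]
  ring

end Pool.Agent.H48.Sp
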