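import Mathlib

/-! Near additivity of a submodular function on a `J`-element set, relative to a set above it. -/

set_option autoImplicit false

namespace Pool.Agent.H48.Sp

open Finset

theorem sum_blocks (f : ℕ → ℝ) (m J : ℕ) :
    ∑ z ∈ range (m * J), f z = ∑ j ∈ range J, ∑ o ∈ range m, f (m * j + o) := by
  induction J with
  | zero => simp
  | succ J ih => rw [Nat.mul_succ, sum_range_add, sum_range_succ, ih]

theorem NA (g : Finset ℕ → ℝ) (d δ : ℝ) (J Λ : ℕ) (hJ : 1 ≤ J) (hd : d < Λ * δ)
    (g1 : ∀ X x, g X ≤ g (insert x X)) (g2 : ∀ X x, g (insert x X) ≤ g X + d)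
    (g3 : ∀ X Y x, X ⊆ Y → g (insert x Y) - g Y ≤ g (insert x X) - g X) :
    ∃ A D : Finset ℕ, ∃ m : ℕ, A ⊆ Icc 1 (J ^ Λ) ∧ D ⊆ Icc 1 (J ^ Λ) ∧ D.card = J ∧
      (∀ x ∈ D, x ≤ m) ∧ (∀ y ∈ A, m < y) ∧ 1 ≤ m ∧ m ≤ J ^ Λ ∧
      ∑ x ∈ D, (g (insert x A) - g A) ≤ g (A ∪ D) - g A + J * δ := by
  by_contra hcon
  push Not at hcon
  -- the claim, by induction on the level
  have key : ∀ l : ℕ, ∀ a : ℕ, ∀ A : Finset ℕ, 1 ≤ a → a + J ^ l ≤ J ^ Λ + 1 →
      A ⊆ Icc 1 (J ^ Λ) → (∀ y ∈ A, a + J ^ l ≤ y) →
      g (A ∪ Ico a (a + J ^ l)) - g A + l * δ * J ^ l ≤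
        ∑ z ∈ range (J ^ l), (g (insert (a + z) A) - g A) := by
    intro l
    induction l with
    | zero =>
      intro a A _ _ _ _
      simp
    | succ l ih =>
      intro a A ha haM hA hAa
      have hJl : 1 ≤ J ^ l := Nat.one_le_pow _ _ hJ
      let C : ℕ → Finset ℕ := fun j => A ∪ Ico (a + J ^ l * j) (a + J ^ (l + 1))
      let z : ℕ → ℕ → ℕ := fun j o => a + (J ^ l * j + o)
      have hend : ∀ j < J, J ^ l * j + J ^ l ≤ J ^ (l + 1) := by
        intro j hj
        rw [pow_succ, ← Nat.mul_succ]
        exact Nat.mul_le_mul_left _ hj
      have hCA : C J = A := by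
        simp only [C]
        rw [← pow_succ]; simp
      have hC0 : C 0 = A ∪ Ico a (a + J ^ (l + 1)) := by simp [C]
      -- induction hypothesis on the blocks
      have h1 : ∀ j < J, g (C j) - g (C (j + 1)) + l * δ * J ^ l ≤
          ∑ o ∈ range (J ^ l), (g (insert (z j o) (C (j + 1))) - g (C (j + 1))) := by
        intro j hj
        have he := hend j hj
        have h2 := ih (a + J ^ l * j) (C (j + 1)) (by omega) (by omega) (by
          intro y hy
          simp only [C, mem_union] at hy
          rcases hy with hy | hy
          · exact hA hy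
          · rw [mem_Ico] at hy; rw [mem_Icc]; omega) (by
          intro y hy
          simp only [C, mem_union] at hy
          rcases hy with hy | hy
          · have := hAa y hy; omega
          · rw [mem_Ico] at hy
            have : J ^ l * (j + 1) = J ^ l * j + J ^ l := Nat.mul_succ _ _
            omega)
        have h3 : C (j + 1) ∪ Ico (a + J ^ l * j) (a + J ^ l * j + J ^ l) = C j := by
          have : J ^ l * (j + 1) = J ^ l * j + J ^ l := Nat.mul_succ _ _
          simp only [C]
          ext y
          simp only [mem_union, mem_Ico]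
          constructor
          · rintro ((h | h) | h)
            · exact Or.inl h
            · right; omega
            · right; omega
          · rintro (h | h)
            · exact Or.inl (Or.inl h)
            · by_cases h' : y < a + J ^ l * j + J ^ l
              · right; omega
              · left; right; omega
        rw [h3] at h2
        have h4 : ∀ o, a + J ^ l * j + o = z j o := fun o => by simp only [z]; ring
        simp only [h4] at h2
        exact h2
      -- the failure on the offsets
      have h5 : ∀ o < J ^ l, ∑ j ∈ range J, (g (insert (z j o) (C (j + 1))) - g (C (j + 1))) +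
          J * δ ≤ ∑ j ∈ range J, (g (insert (z j o) A) - g A) := by
        intro o ho
        have hzinj : ∀ j j' : ℕ, z j o = z j' o → j = j' := by
          intro j j' h
          simp only [z] at h
          have : J ^ l * j = J ^ l * j' := by omega
          exact Nat.eq_of_mul_eq_mul_left hJl this
        let D : Finset ℕ := (range J).image fun j => z j o
        have hzlt : ∀ j < J, z j o < a + J ^ (l + 1) := by
          intro j hj
          have := hend j hj
          simp only [z]; omega
        have hcon' := hcon A D (a + J ^ (l + 1) - 1) hA (by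
            intro y hy
            simp only [D, mem_image, mem_range] at hy
            obtain ⟨j, hj, rfl⟩ := hy
            have := hzlt j hj
            rw [mem_Icc]
            refine ⟨?_, by omega⟩
            simp only [z]; omega) (by
            simp only [D]
            rw [card_image_of_injective _ fun j j' h => hzinj j j' h, card_range]) (by
            intro y hy
            simp only [D, mem_image, mem_range] at hy
            obtain ⟨j, hj, rfl⟩ := hy
            have := hzlt j hj
            omega) (by
            intro y hy
            have := hAa y hy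
            have : 1 ≤ J ^ (l + 1) := Nat.one_le_pow _ _ hJ
            omega) (by
            have : 1 ≤ J ^ (l + 1) := Nat.one_le_pow _ _ hJ
            omega) (by omega)
        have h6 : ∑ x ∈ D, (g (insert x A) - g A) =
            ∑ j ∈ range J, (g (insert (z j o) A) - g A) := by
          simp only [D]
          rw [sum_image fun j _ j' _ h => hzinj j j' h]
        rw [h6] at hcon'
        -- telescoping
        let E : ℕ → Finset ℕ := fun j => A ∪ (Ico j J).image fun j => z j o
        have hEJ : E J = A := by simp [E]
        have hE0 : E 0 = A ∪ D := by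
          simp only [E, D, Finset.range_eq_Ico]
        have hEs : ∀ j < J, E j = insert (z j o) (E (j + 1)) := by
          intro j hj
          have : Ico j J = insert j (Ico (j + 1) J) := by
            ext y; simp only [mem_insert, mem_Ico]; omega
          simp only [E]
          rw [this, image_insert, union_insert]
        have h7 : ∀ j ∈ range J, g (insert (z j o) (C (j + 1))) - g (C (j + 1)) ≤
            g (E j) - g (E (j + 1)) := by
          intro j hj
          rw [hEs j (mem_range.1 hj)]
          refine g3 _ _ _ ?_
          intro y hy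
          simp only [E, mem_union, mem_image, mem_Ico] at hy
          simp only [C, mem_union, mem_Ico]
          rcases hy with hy | ⟨j', hj', rfl⟩
          · exact Or.inl hy
          · right
            refine ⟨?_, hzlt j' hj'.2⟩
            have : J ^ l * (j + 1) ≤ J ^ l * j' := Nat.mul_le_mul_left _ hj'.1
            simp only [z]; omega
        have h8 := sum_le_sum h7
        rw [Finset.sum_range_sub' (fun j => g (E j)), hEJ, hE0] at h8
        linarith
      -- sum up
      have h9 : ∑ z' ∈ range (J ^ (l + 1)), (g (insert (a + z') A) - g A) =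
          ∑ o ∈ range (J ^ l), ∑ j ∈ range J, (g (insert (z j o) A) - g A) := by
        rw [pow_succ, sum_blocks, sum_comm]
      have h10 := sum_le_sum fun o (ho : o ∈ range (J ^ l)) => h5 o (mem_range.1 ho)
      have h11 := sum_le_sum fun j (hj : j ∈ range J) => h1 j (mem_range.1 hj)
      rw [sum_add_distrib, Finset.sum_range_sub' (fun j => g (C j)), hCA, hC0] at h11
      rw [sum_add_distrib, sum_comm] at h10
      simp only [sum_const, card_range, nsmul_eq_mul] at h10 h11
      rw [h9]
      push_cast at h10 h11 ⊢
      have h12 : (J:ℝ) ^ (l + 1) = (J:ℝ) ^ l * J := pow_succ _ _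
      rw [h12]
      have h13 : (J:ℝ) * (l * δ * (J:ℝ) ^ l) + (J:ℝ) ^ l * (J * δ) =
        (l + 1) * δ * ((J:ℝ) ^ l * J) := by ring
      linarith
  have h1 := key Λ 1 ∅ le_rfl (by omega) (empty_subset _) (fun y hy => by simp at hy)
  have h2 : ∑ z ∈ range (J ^ Λ), (g (insert (1 + z) ∅) - g ∅) ≤ ∑ z ∈ range (J ^ Λ), d :=
    sum_le_sum fun z _ => by have := g2 ∅ (1 + z); linarith
  rw [sum_const, card_range, nsmul_eq_mul] at h2
  have h3 : ∀ Y : Finset ℕ, g ∅ ≤ g Y := by
    intro Y
    induction Y using Finset.induction_on with
    | empty => exact le_rfl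
    | insert y Y _ ih => exact ih.trans (g1 Y y)
  have h4 := h3 (∅ ∪ Ico 1 (1 + J ^ Λ))
  have h5 : (0:ℝ) < (J:ℝ) ^ Λ := by positivity
  have h6 : (Λ * δ - d) * (J:ℝ) ^ Λ ≤ 0 := by
    push_cast at h2
    nlinarith
  nlinarith
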