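import Pool.Agent.H48.Split.Copy

/-! The rank function of the universal system of copies and the conditional laws. -/

set_option autoImplicit false
set_option linter.unusedSectionVars false

namespace Pool.Agent.H48.Sp

open Finset Classical

variable {ι : Type} [Fintype ι] {n : ℕ} {μ : (ι → Fin n) → ℝ}

/-- entropy deficit of the coordinates in `T` -/
noncomputable def Dv (μ : (ι → Fin n) → ℝ) (T : Finset ι) : ℝ :=
  T.card * Real.log n - HH μ cv T

theorem Dv_nonneg (hμ : ∀ a, 0 ≤ μ a) (h1 : ∑ a, μ a = 1) (T : Finset ι) : 0 ≤ Dv μ T := by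
  unfold Dv
  have := HH_le (ξ := cv) hμ h1 T
  linarith

theorem Dv_insert (T : Finset ι) {i : ι} (hi : i ∉ T) :
    Dv μ (insert i T) - Dv μ T = Real.log n - (HH μ cv (insert i T) - HH μ cv T) := by
  unfold Dv
  rw [card_insert_of_notMem hi]
  push_cast
  ring

theorem Dv_insert_nonneg (hμ : ∀ a, 0 ≤ μ a) (h1 : ∑ a, μ a = 1) (T : Finset ι) {i : ι}
    (hi : i ∉ T) : Dv μ T ≤ Dv μ (insert i T) := by
  have h2 := Dv_insert (μ := μ) T hi
  have h3 := HH_insert_le (ξ := cv) hμ h1 T i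
  linarith

/-- supermodularity of the deficit -/
theorem Dv_super (hμ : ∀ a, 0 ≤ μ a) (h1 : ∑ a, μ a = 1) {S T : Finset ι} (hST : S ⊆ T) {i : ι}
    (hi : i ∉ T) : Dv μ (insert i S) - Dv μ S ≤ Dv μ (insert i T) - Dv μ T := by
  rw [Dv_insert (μ := μ) T hi, Dv_insert (μ := μ) S fun h => hi (hST h)]
  have h3 := HH_incr (ξ := cv) hμ h1 {i} hST
  rw [union_comm T, union_comm S, ← insert_eq, ← insert_eq] at h3
  linarith

/-- the rank function -/
noncomputable def rk (μ : (ι → Fin n) → ℝ) (E : Finset ι) (S : Finset (Finset ι)) : ℝ :=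
  E.card * Real.log n - (HH (WW μ) xv (obs S univ) - HH (WW μ) xv (obs S Eᶜ))

theorem obs_mono {S S' : Finset (Finset ι)} {T T' : Finset ι} (h : S ⊆ S') (h' : T ⊆ T') :
    obs S T ⊆ obs S' T' :=
  product_subset_product (insert_subset_insert _ (image_subset_image h)) h'

/-- root coordinates determine the coordinates of the copies -/
theorem HH_obs {S : Finset (Finset ι)} {P Q : Finset ι}
    (hQ : ∀ K ∈ S, Q ⊆ K) :
    HH (WW μ) xv (obs S (P ∪ Q)) = HH (WW μ) xv (obs S P ∪ obs ∅ Q) := by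
  refine HH_congr_as fun ω ω' h h' => ⟨fun H => H.mono ?_, fun H => ?_⟩
  · exact union_subset (obs_mono Subset.rfl subset_union_left)
      (obs_mono (empty_subset _) subset_union_right)
  · rintro ⟨o, i⟩ hi
    unfold obs at hi
    rw [mem_product, mem_insert, mem_union] at hi
    rcases hi.2 with h1 | h1
    · refine H _ (mem_union_left _ ?_)
      unfold obs
      rw [mem_product, mem_insert]
      exact ⟨hi.1, h1⟩
    · have h2 : ω.1 i = ω'.1 i := H (none, i) (mem_union_right _ (by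
        unfold obs; rw [mem_product, mem_insert]; exact ⟨Or.inl rfl, h1⟩))
      rcases hi.1 with h3 | h3
      · simp only at h3; subst h3; exact h2
      · rw [mem_image] at h3
        obtain ⟨K, hK, h4⟩ := h3
        simp only at h4
        subst h4
        change ω.2 K i = ω'.2 K i
        have e1 : ω.2 K i = ω.1 i := ((WW_ne ω h).2 K).2 i (hQ K hK h1)
        have e2 : ω'.2 K i = ω'.1 i := ((WW_ne ω' h').2 K).2 i (hQ K hK h1)
        rw [e1, e2, h2]

theorem HH_obs_insert {S : Finset (Finset ι)} {P K : Finset ι} (hK : Kᶜ ⊆ P) :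
    HH (WW μ) xv (obs (insert K S) P) = HH (WW μ) xv (obs S P ∪ {some K} ×ˢ Kᶜ) := by
  refine HH_congr_as fun ω ω' h h' => ⟨fun H => H.mono ?_, fun H => ?_⟩
  · refine union_subset (obs_mono (subset_insert _ _) Subset.rfl) ?_
    unfold obs
    refine product_subset_product ?_ hK
    intro o ho
    rw [mem_singleton] at ho
    subst ho
    simp
  · rintro ⟨o, i⟩ hi
    unfold obs at hi
    rw [mem_product, mem_insert, image_insert, mem_insert] at hi
    have h2 : ω.1 i = ω'.1 i := H (none, i) (mem_union_left _ (by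
        unfold obs; rw [mem_product, mem_insert]; exact ⟨Or.inl rfl, hi.2⟩))
    rcases hi.1 with h3 | h3 | h3
    · simp only at h3; subst h3; exact h2
    · simp only at h3
      subst h3
      by_cases h5 : i ∈ K
      · change ω.2 K i = ω'.2 K i
        have e1 : ω.2 K i = ω.1 i := ((WW_ne ω h).2 K).2 i h5
        have e2 : ω'.2 K i = ω'.1 i := ((WW_ne ω' h').2 K).2 i h5
        rw [e1, e2, h2]
      · exact H _ (mem_union_right _ (by simp [h5]))
    · refine H _ (mem_union_left _ ?_)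
      unfold obs
      rw [mem_product, mem_insert]
      exact ⟨Or.inr h3, hi.2⟩

theorem rk_empty_left (S : Finset (Finset ι)) : rk μ ∅ S = 0 := by
  unfold rk; simp

theorem rk_nonneg (hμ : ∀ a, 0 ≤ μ a) (h1 : ∑ a, μ a = 1) {E : Finset ι}
    {S : Finset (Finset ι)} (hE : ∀ K ∈ S, E ⊆ K) : 0 ≤ rk μ E S := by
  unfold rk
  have h2 := HH_obs (μ := μ) (P := Eᶜ) (Q := E) hE
  rw [union_comm, union_compl] at h2
  rw [h2]
  have h3 := HH_union_le (ξ := xv) (WW_nonneg hμ) (WW_sum hμ h1) (obs S Eᶜ) (obs ∅ E)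
  have h4 : (obs ∅ E).card = E.card := by
    unfold obs; rw [card_product]; simp
  rw [h4] at h3
  linarith

theorem rk_empty_le (hμ : ∀ a, 0 ≤ μ a) (h1 : ∑ a, μ a = 1) (E : Finset ι) :
    rk μ E ∅ ≤ Dv μ univ := by
  unfold rk Dv
  rw [HH_root hμ, HH_root hμ]
  have h2 := HH_le (ξ := cv) hμ h1 Eᶜ
  have h3 : ((univ : Finset ι).card : ℝ) = E.card + (Eᶜ).card := by
    rw [← Nat.cast_add, card_add_card_compl, card_univ]
  rw [h3]
  linarith

theorem full_insert (hμ : ∀ a, 0 ≤ μ a) {S : Finset (Finset ι)} {K : Finset ι} (hK : K ∉ S) :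
    HH (WW μ) xv (obs (insert K S) univ) - HH (WW μ) xv (obs S univ) =
      HH μ cv univ - HH μ cv K := by
  rw [HH_full hμ, HH_full hμ, sum_insert hK]
  ring

theorem rk_insert (hμ : ∀ a, 0 ≤ μ a) {E : Finset ι} {S : Finset (Finset ι)} {K : Finset ι}
    (hK : K ∉ S) : rk μ E (insert K S) - rk μ E S =
      (HH (WW μ) xv (obs (insert K S) Eᶜ) - HH (WW μ) xv (obs S Eᶜ)) -
      (HH μ cv univ - HH μ cv K) := by
  rw [← full_insert hμ hK]
  unfold rk
  ring

theorem rk_mono (hμ : ∀ a, 0 ≤ μ a) (h1 : ∑ a, μ a = 1) {E : Finset ι}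
    {S : Finset (Finset ι)} {K : Finset ι} (hE : E ⊆ K) :
    rk μ E S ≤ rk μ E (insert K S) := by
  by_cases hK : K ∈ S
  · rw [insert_eq_of_mem hK]
  have h2 := rk_insert (E := E) hμ hK
  rw [← full_insert hμ hK, HH_obs_insert (subset_univ _),
    HH_obs_insert (compl_subset_compl.2 hE)] at h2
  have h3 := HH_incr (ξ := xv) (WW_nonneg hμ) (WW_sum hμ h1)
    (({some K} : Finset (Option (Finset ι))) ×ˢ Kᶜ)
    (obs_mono (T := Eᶜ) (T' := univ) (Subset.refl S) (subset_univ _))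
  linarith

theorem rk_incr (hμ : ∀ a, 0 ≤ μ a) (h1 : ∑ a, μ a = 1) {E : Finset ι}
    {S : Finset (Finset ι)} {K : Finset ι} (hE : E ⊆ K) :
    rk μ E (insert K S) ≤ rk μ E S + Dv μ univ := by
  by_cases hK : K ∈ S
  · rw [insert_eq_of_mem hK]
    have := Dv_nonneg hμ h1 univ
    linarith
  have h2 := rk_insert (E := E) hμ hK
  rw [HH_obs_insert (compl_subset_compl.2 hE)] at h2
  have h3 := HH_union_le (ξ := xv) (WW_nonneg hμ) (WW_sum hμ h1) (obs S Eᶜ)
    (({some K} : Finset (Option (Finset ι))) ×ˢ Kᶜ)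
  rw [card_product, card_singleton, one_mul] at h3
  have h4 : ((univ : Finset ι).card : ℝ) = K.card + (Kᶜ).card := by
    rw [← Nat.cast_add, card_add_card_compl, card_univ]
  have h5 := HH_le (ξ := cv) hμ h1 K
  unfold Dv
  rw [h4]
  linarith

theorem rk_submod (hμ : ∀ a, 0 ≤ μ a) (h1 : ∑ a, μ a = 1) {E : Finset ι}
    {S S' : Finset (Finset ι)} {K : Finset ι} (hE : E ⊆ K) (hS : S ⊆ S') :
    rk μ E (insert K S') - rk μ E S' ≤ rk μ E (insert K S) - rk μ E S := by
  by_cases hK : K ∈ S'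
  · rw [insert_eq_of_mem hK, sub_self]
    have := rk_mono hμ h1 (S := S) hE
    linarith
  rw [rk_insert (E := E) hμ hK, rk_insert (E := E) hμ fun h => hK (hS h),
    HH_obs_insert (compl_subset_compl.2 hE), HH_obs_insert (compl_subset_compl.2 hE)]
  have h3 := HH_incr (ξ := xv) (WW_nonneg hμ) (WW_sum hμ h1)
    (({some K} : Finset (Option (Finset ι))) ×ˢ Kᶜ)
    (obs_mono (T := Eᶜ) (T' := Eᶜ) hS (Subset.refl _))
  linarith

/-- conditional law of the root on the coordinates `e i`, given the observables of `S`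
outside `E` -/
noncomputable def cl {ι' : Type} (μ : (ι → Fin n) → ℝ) (S : Finset (Finset ι)) (E : Finset ι)
    (e : ι' → ι) (ω : Cf ι n) : (ι' → Fin n) → ℝ :=
  push (cnd (WW μ) xv (obs S Eᶜ) ω) (fun ω' (i : ι') => ω'.1 (e i))

section
variable {ι' : Type} [Fintype ι'] {e : ι' → ι}

theorem cl_nonneg (hμ : ∀ a, 0 ≤ μ a) (S : Finset (Finset ι)) (E : Finset ι) (ω : Cf ι n)
    (z : ι' → Fin n) : 0 ≤ cl μ S E e ω z :=
  push_nonneg (fun _ => cnd_nonneg (WW_nonneg hμ) _ _ _) _ _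

theorem cl_sum (hμ : ∀ a, 0 ≤ μ a) (S : Finset (Finset ι)) (E : Finset ι) {ω : Cf ι n}
    (h : WW μ ω ≠ 0) : ∑ z, cl μ S E e ω z = 1 := by
  have := push_sum (p := cnd (WW μ) xv (obs S Eᶜ) ω)
    (fun (ω' : Cf ι n) (i : ι') => ω'.1 (e i)) (fun _ => 1)
  simp only [mul_one] at this
  unfold cl
  rw [this, cnd_sum (WW_nonneg hμ) _ h]

theorem cl_HH (S : Finset (Finset ι)) (E : Finset ι) (ω : Cf ι n) (T : Finset ι') :
    HH (cl μ S E e ω) cv T =
      HH (cnd (WW μ) xv (obs S Eᶜ) ω) xv (obs ∅ (T.image e)) := by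
  unfold cl
  rw [push_HH]
  have : (fun a : Cf ι n => cv fun i : ι' => a.1 (e i)) =
      fun (a : Cf ι n) (i : ι') => xv a (none, e i) := rfl
  rw [this, HH_comp (ξ := xv) (fun i : ι' => (none, e i))]
  congr 1
  ext ⟨o, i⟩
  unfold obs
  rw [mem_product, mem_image]
  constructor
  · rintro ⟨a, ha, h⟩
    rw [Prod.mk.injEq] at h
    refine ⟨by simp [← h.1], ?_⟩
    rw [mem_image]
    exact ⟨a, ha, h.2⟩
  · rintro ⟨h, h'⟩
    rw [mem_image] at h'
    obtain ⟨a, ha, h''⟩ := h'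
    refine ⟨a, ha, ?_⟩
    simp only [image_empty, insert_empty_eq, mem_singleton] at h
    rw [h, h'']

theorem cl_Dv (hμ : ∀ a, 0 ≤ μ a) (h1 : ∑ a, μ a = 1) {S : Finset (Finset ι)} {E : Finset ι}
    (hE : ∀ K ∈ S, E ⊆ K) (he : Function.Injective e) (heE : ∀ i, e i ∈ E) (T : Finset ι') :
    ∑ ω, WW μ ω * Dv (cl μ S E e ω) T = rk μ E S - rk μ (E \ T.image e) S := by
  have hT : T.image e ⊆ E := by
    intro i hi
    rw [mem_image] at hi
    obtain ⟨a, _, h⟩ := hi
    rw [← h]; exact heE a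
  have h2 : ∑ ω, WW μ ω * Dv (cl μ S E e ω) T = T.card * Real.log n -
      (HH (WW μ) xv (obs S Eᶜ ∪ obs ∅ (T.image e)) - HH (WW μ) xv (obs S Eᶜ)) := by
    rw [← cnd_HH (WW_nonneg hμ)]
    unfold Dv
    simp only [mul_sub, cl_HH]
    rw [sum_sub_distrib, ← sum_mul, WW_sum hμ h1, one_mul]
  have h3 : HH (WW μ) xv (obs S Eᶜ ∪ obs ∅ (T.image e)) =
      HH (WW μ) xv (obs S (E \ T.image e)ᶜ) := by
    rw [← HH_obs (μ := μ) fun K hK => hT.trans (hE K hK)]
    congr 2
    ext i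
    simp only [mem_union, mem_compl, mem_sdiff]
    tauto
  rw [h2, h3]
  unfold rk
  have h4 : (E.card : ℝ) = (E \ T.image e).card + T.card := by
    rw [← card_image_of_injective T he, ← Nat.cast_add, card_sdiff_add_card_eq_card hT]
  rw [h4]
  ring

theorem cl_supp {S : Finset (Finset ι)} {E : Finset ι} {ω : Cf ι n} {z : ι' → Fin n}
    (hz : cl μ S E e ω z ≠ 0) (heE : ∀ i ∈ E, ∃ j, e j = i) {K : Finset ι} (hK : K ∈ S)
    (hEK : E ⊆ K) (w : ι → Fin n) (hw : ∀ j, w (e j) = z j) (hw' : ∀ i ∉ E, w i = ω.2 K i) :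
    μ w ≠ 0 := by
  obtain ⟨ω', h1, h2⟩ := push_ne _ _ hz
  unfold cnd at h2
  by_cases h3 : Ag xv (obs S Eᶜ) ω' ω
  · rw [if_pos h3] at h2
    have h4 : WW μ ω' ≠ 0 := fun h => h2 (by rw [h, zero_div])
    have h5 := (WW_ne ω' h4).2 K
    have h6 : w = ω'.2 K := by
      funext i
      by_cases hi : i ∈ E
      · obtain ⟨j, rfl⟩ := heE i hi
        rw [hw, ← h1]
        exact (h5.2 _ (hEK hi)).symm
      · rw [hw' i hi]
        refine (h3 (some K, i) ?_).symm
        unfold obs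
        rw [mem_product, mem_insert, mem_image]
        exact ⟨Or.inr ⟨K, hK, rfl⟩, mem_compl.2 hi⟩
    rw [h6]
    exact h5.1
  · rw [if_neg h3] at h2; exact absurd rfl h2

end

end Pool.Agent.H48.Sp
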