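import Pool.Agent.H48.Split.Coll

/-! The induction on the number of types. -/

set_option autoImplicit false
set_option linter.unusedSectionVars false

namespace Pool.Agent.H48.Sp

open Finset Classical

/-- two words `x`, `y` which differ everywhere and a map to types such that all exchanges of types
stay in `F` -/
def CubeIn (t : ℕ) {ι : Type} {n : ℕ} (F : (ι → Fin n) → Prop) : Prop :=
  ∃ x y : ι → Fin n, ∃ κ : ι → Fin t, Function.Surjective κ ∧ (∀ i, x i ≠ y i) ∧
    ∀ ε : Fin t → Bool, F fun i => if ε (κ i) = true then x i else y i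

/-- probability weights -/
def IsP {ι : Type} [Fintype ι] {n : ℕ} (μ : (ι → Fin n) → ℝ) : Prop :=
  (∀ a, 0 ≤ μ a) ∧ ∑ a, μ a = 1

def CubeP (t : ℕ) : Prop :=
  ∀ d : ℝ, 1 ≤ d → ∃ N0 : ℕ, ∀ (ι : Type) [Fintype ι], N0 ≤ Fintype.card ι →
    ∃ n0 : ℕ, ∀ n, n0 ≤ n → ∀ μ : (ι → Fin n) → ℝ, IsP μ →
      Dv μ univ ≤ d * Real.log n → CollOK μ → CubeIn t fun a => μ a ≠ 0

theorem base : CubeP 1 := by
  intro d _
  refine ⟨1, fun ι _ hι => ⟨0, fun n _ μ hP _ hc => ?_⟩⟩
  obtain ⟨hμ, h1⟩ := hP
  have hfac : (0:ℝ) < ((Fintype.card ι).factorial : ℝ) := by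
    exact_mod_cast Nat.factorial_pos _
  have hne : Nonempty ι := Fintype.card_pos_iff.1 hι
  have h2 := hc ∅ (by simp)
  simp only [image_empty, compl_empty] at h2
  rw [sum_const, card_univ, Fintype.card_perm, nsmul_eq_mul] at h2
  have h3 : ∑ i : ι, ∑ a, μ a * pp μ ∅ i a ≤ 1 / 20 := by
    by_contra h
    push Not at h
    nlinarith
  have h4 : (∅ : Finset ι) ≠ univ := by
    intro h
    have := congrArg card h
    rw [card_empty, card_univ] at this
    omega
  obtain ⟨ω, hω, hωc⟩ : ∃ ω : Cf ι n, WW μ ω ≠ 0 ∧ ∀ i, ω.2 ∅ i ≠ ω.2 univ i := by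
    by_contra hcon
    push Not at hcon
    have h5 : ∀ ω : Cf ι n, WW μ ω ≤ ∑ i, if ω.2 ∅ i = ω.2 univ i then WW μ ω else 0 := by
      intro ω
      by_cases hω : WW μ ω = 0
      · rw [hω]; exact sum_nonneg fun i _ => by simp
      · obtain ⟨i, hi⟩ := hcon ω hω
        refine le_trans (le_of_eq ?_) (single_le_sum (f := fun i =>
          if ω.2 ∅ i = ω.2 univ i then WW μ ω else 0) (fun j _ => ?_) (mem_univ i))
        · rw [if_pos hi]
        · split_ifs
          · exact WW_nonneg hμ ω
          · exact le_rfl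
    have h6 := sum_le_sum fun ω (_ : ω ∈ (univ : Finset (Cf ι n))) => h5 ω
    rw [WW_sum hμ h1, sum_comm] at h6
    have h7 := sum_le_sum fun i (_ : i ∈ (univ : Finset ι)) => coll hμ ∅ univ h4 i
    linarith
  obtain ⟨_, h6⟩ := WW_ne ω hω
  refine ⟨ω.2 ∅, ω.2 univ, fun _ => 0, ?_, hωc, ?_⟩
  · intro j
    exact ⟨hne.some, (Subsingleton.elim _ _)⟩
  · intro ε
    by_cases hε : ε 0 = true
    · simp only [hε, if_true]; exact (h6 ∅).1
    · simp only [hε]; exact (h6 univ).1

theorem choose_sum {α β : Type} [Fintype α] [Fintype β] [Nonempty α] (w : β → ℝ)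
    (hw : ∀ b, 0 ≤ w b) (hw1 : ∑ b, w b = 1) (A B C : α → β → ℝ)
    (hA0 : ∀ s b, w b ≠ 0 → 0 ≤ A s b) (hB0 : ∀ s b, w b ≠ 0 → 0 ≤ B s b)
    (hC0 : ∀ s b, w b ≠ 0 → 0 ≤ C s b) {p q : ℝ} (hp : 0 < p) (hq : 0 < q)
    (hA : ∑ s, ∑ b, w b * A s b ≤ Fintype.card α * (1 / 10))
    (hB : ∑ s, ∑ b, w b * B s b ≤ Fintype.card α * (p / 4))
    (hC : ∑ s, ∑ b, w b * C s b ≤ Fintype.card α * (q / 4)) :
    ∃ s b, w b ≠ 0 ∧ A s b < 1 ∧ B s b ≤ p ∧ C s b ≤ q := by
  by_contra hcon
  push Not at hcon
  have h1 : ∀ s b, w b ≤ w b * A s b + w b * B s b / p + w b * C s b / q := by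
    intro s b
    by_cases hb : w b = 0
    · simp [hb]
    have a0 := hA0 s b hb
    have b0 := div_nonneg (hB0 s b hb) hp.le
    have c0 := div_nonneg (hC0 s b hb) hq.le
    have key : 1 ≤ A s b + B s b / p + C s b / q := by
      by_cases h2 : A s b < 1
      · by_cases h3 : B s b ≤ p
        · have h4 := hcon s b hb h2 h3
          have : 1 ≤ C s b / q := by rw [le_div_iff₀ hq]; linarith
          linarith
        · push Not at h3
          have : 1 ≤ B s b / p := by rw [le_div_iff₀ hp]; linarith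
          linarith
      · push Not at h2; linarith
    have := mul_le_mul_of_nonneg_left key (hw b)
    calc w b = w b * 1 := by ring
      _ ≤ _ := this
      _ = _ := by ring
  have h2 := sum_le_sum fun s (_ : s ∈ (univ : Finset α)) =>
    sum_le_sum fun b (_ : b ∈ (univ : Finset β)) => h1 s b
  simp only [sum_add_distrib, ← sum_div] at h2
  rw [hw1, sum_const, card_univ, nsmul_eq_mul, mul_one] at h2
  have h3 : (∑ s, ∑ b, w b * B s b) / p ≤ Fintype.card α * (1 / 4) := by
    rw [div_le_iff₀ hp]; linarith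
  have h4 : (∑ s, ∑ b, w b * C s b) / q ≤ Fintype.card α * (1 / 4) := by
    rw [div_le_iff₀ hq]; linarith
  have h5 : (0:ℝ) < Fintype.card α := by exact_mod_cast Fintype.card_pos
  linarith

theorem sum_powersetCard_image {α β : Type} (e : α → β) (he : Function.Injective e)
    (s : Finset α) (k : ℕ) (f : Finset β → ℝ) :
    ∑ T ∈ powersetCard k (s.image e), f T = ∑ T ∈ powersetCard k s, f (T.image e) := by
  have h1 : s.image e = s.map ⟨e, he⟩ := (map_eq_image ⟨e, he⟩ s).symm
  rw [h1, powersetCard_map, sum_map]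
  refine sum_congr rfl fun T _ => ?_
  congr 1
  exact map_eq_image ⟨e, he⟩ T

theorem step (t : ℕ) (ht : CubeP t) : CubeP (t + 1) := by
  intro d hd
  obtain ⟨B, hB⟩ := AML d (1 / 640) (by linarith) (by norm_num)
  have hBd : 1 ≤ ((B:ℝ) + 1) * d := by
    have : (0:ℝ) ≤ B := Nat.cast_nonneg _
    nlinarith
  obtain ⟨N0', hN0'⟩ := ht (4 * (((B:ℝ) + 1) * d)) (by linarith)
  obtain ⟨N0, hN0⟩ := hB (max N0' 1) (le_max_right _ _)
  refine ⟨max N0 1, ?_⟩
  intro ι _ hι
  have hιN0 : N0 ≤ Fintype.card ι := (le_max_left _ _).trans hι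
  have hι1 : 1 ≤ Fintype.card ι := (le_max_right _ _).trans hι
  -- thresholds
  have h1 : ∀ E : Finset ι, ∃ m : ℕ, N0' ≤ E.card → ∀ n, m ≤ n → ∀ μ : (E → Fin n) → ℝ,
      IsP μ → Dv μ univ ≤ 4 * (((B:ℝ) + 1) * d) * Real.log n →
      CollOK μ → CubeIn t fun a => μ a ≠ 0 := by
    intro E
    by_cases h : N0' ≤ E.card
    · obtain ⟨m, hm⟩ := hN0' E (by rwa [Fintype.card_coe])
      exact ⟨m, fun _ => hm⟩
    · exact ⟨0, fun h' => absurd h' h⟩
  choose m hm using h1
  refine ⟨univ.sup m + 2 ^ (40 * Fintype.card ι), ?_⟩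
  intro n hn μ hP hdv hcoll
  obtain ⟨hμ, hμ1⟩ := hP
  have hl2 : 0 < Real.log 2 := Real.log_pos (by norm_num)
  have hfac : (0:ℝ) < ((Fintype.card ι).factorial : ℝ) := by
    exact_mod_cast Nat.factorial_pos _
  have hnlog : 40 * (Fintype.card ι : ℝ) * Real.log 2 ≤ Real.log n := by
    have h2 : (2:ℝ) ^ (40 * Fintype.card ι) ≤ n := by
      exact_mod_cast (Nat.le_add_left _ _).trans hn
    have h3 := Real.log_le_log (by positivity) h2
    rw [Real.log_pow] at h3
    push_cast at h3
    exact h3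
  have hL : 0 < Real.log n := by
    have : (1:ℝ) ≤ Fintype.card ι := by exact_mod_cast hι1
    nlinarith
  have hZ : 0 < ((Fintype.card ι).factorial : ℝ) * Real.log n := mul_pos hfac hL
  have hRS := Rk_RS hμ hμ1 hL hdv
  obtain ⟨E0, E1, K1, K2, S, hE01, hE0c, hE1c, hSB, hES, hK1S, hK2S, hKK, hKne, hK1c, hK2c, hR⟩ :=
    hN0 ι hιN0 (Rk μ) hRS
  obtain ⟨β, hβ⟩ : ∃ β, β = E1.card - E0.card := ⟨_, rfl⟩
  have hE01c := card_le_card hE01
  have hbR : ∀ (E : Finset ι) (S : Finset (Finset ι)),
      ∑ σ : Equiv.Perm ι, rk μ (E.image σ) (S.image fun K => K.image σ) =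
      ((Fintype.card ι).factorial : ℝ) * Real.log n * Rk μ E S := by
    intro E S
    unfold Rk
    rw [mul_div_cancel₀ _ hZ.ne']
  -- the rank at E1 minus β elements
  have hsym : ∀ T ∈ powersetCard β E1, Rk μ (E1 \ T) S = Rk μ E0 S := by
    intro T hT
    rw [mem_powersetCard] at hT
    obtain ⟨τ, hτ1, hτ2⟩ := exists_perm_on E1 E0 (E1 \ T) hE01 sdiff_subset (by
      rw [card_sdiff_of_subset hT.1, hT.2]; omega)
    have h2 := hRS.symm τ E0 S
    rw [hτ1] at h2
    have h3 : S.image (fun K => K.image τ) = S := by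
      have : S.image (fun K => K.image τ) = S.image id := image_congr fun K hK =>
        image_of_supset hτ2 (hES K hK)
      rw [this, image_id]
    rw [h3] at h2
    exact h2
  have hEσS : ∀ σ : Equiv.Perm ι, ∀ K ∈ S.image (fun K => K.image σ), E1.image σ ⊆ K := by
    intro σ K hK
    rw [mem_image] at hK
    obtain ⟨K', hK', rfl⟩ := hK
    exact image_subset_image (hES K' hK')
  let cc : ∀ σ : Equiv.Perm ι, Cf ι n → (E1.image σ → Fin n) → ℝ := fun σ ω =>
    cl μ (S.image fun K => K.image σ) (E1.image σ) Subtype.val ω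
  have hchoose : (0:ℝ) < (E1.card.choose β : ℝ) := by
    exact_mod_cast Nat.choose_pos (by omega)
  -- the choice
  obtain ⟨σ, ω, hω, hA, hBB, hC⟩ := choose_sum (α := Equiv.Perm ι) (WW μ) (WW_nonneg hμ)
    (WW_sum hμ hμ1)
    (fun σ ω => ∑ i ∈ (E1.image σ)ᶜ,
      if ω.2 (K1.image σ) i = ω.2 (K2.image σ) i then (1:ℝ) else 0)
    (fun σ ω => ∑ T ∈ powersetCard β (univ : Finset (E1.image σ)), Dv (cc σ ω) T)
    (fun σ ω => Dv (cc σ ω) univ)
    (fun σ ω _ => sum_nonneg fun i _ => by split_ifs <;> norm_num)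
    (fun σ ω hω => sum_nonneg fun T _ => Dv_nonneg (cl_nonneg hμ _ _ _) (cl_sum hμ _ _ hω) _)
    (fun σ ω hω => Dv_nonneg (cl_nonneg hμ _ _ _) (cl_sum hμ _ _ hω) _)
    (p := (E1.card.choose β : ℝ) * (1 / 160 * Real.log n))
    (q := 4 * (((B:ℝ) + 1) * d) * Real.log n) (by positivity) (by positivity)
    (by
      rw [Fintype.card_perm]
      have h2 : ∀ σ : Equiv.Perm ι, ∑ ω : Cf ι n, WW μ ω * ∑ i ∈ (E1.image σ)ᶜ,
          (if ω.2 (K1.image σ) i = ω.2 (K2.image σ) i then (1:ℝ) else 0) ≤
          ∑ i ∈ (K1.image σ)ᶜ, ∑ a, μ a * pp μ (K1.image σ) i a +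
          ∑ i ∈ (K2.image σ)ᶜ, ∑ a, μ a * pp μ (K2.image σ) i a := by
        intro σ
        have hne : K1.image σ ≠ K2.image σ := fun h =>
          hKne (image_injective σ.injective h)
        have h3 : (E1.image σ)ᶜ = (K1.image σ)ᶜ ∪ (K2.image σ)ᶜ := by
          rw [← hKK, image_inter _ _ σ.injective, compl_inter]
        have h4 : ∑ ω : Cf ι n, WW μ ω * ∑ i ∈ (E1.image σ)ᶜ,
            (if ω.2 (K1.image σ) i = ω.2 (K2.image σ) i then (1:ℝ) else 0) =
            ∑ i ∈ (E1.image σ)ᶜ, ∑ ω : Cf ι n,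
              if ω.2 (K1.image σ) i = ω.2 (K2.image σ) i then WW μ ω else 0 := by
          rw [sum_comm]
          refine sum_congr rfl fun ω _ => ?_
          rw [mul_sum]
          refine sum_congr rfl fun i _ => ?_
          rw [mul_ite, mul_one, mul_zero]
        have hx : ∀ i, 0 ≤ ∑ ω : Cf ι n,
              if ω.2 (K1.image σ) i = ω.2 (K2.image σ) i then WW μ ω else 0 := fun i =>
          sum_nonneg fun ω _ => by
            split_ifs
            · exact WW_nonneg hμ ω
            · exact le_rfl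
        rw [h4, h3]
        have h5 := sum_union_inter (s₁ := (K1.image σ)ᶜ) (s₂ := (K2.image σ)ᶜ) (f := fun i =>
          ∑ ω : Cf ι n, if ω.2 (K1.image σ) i = ω.2 (K2.image σ) i then WW μ ω else 0)
        have h6 : 0 ≤ ∑ i ∈ (K1.image σ)ᶜ ∩ (K2.image σ)ᶜ,
          ∑ ω : Cf ι n, (if ω.2 (K1.image σ) i = ω.2 (K2.image σ) i then WW μ ω else 0) :=
          sum_nonneg fun i _ => hx i
        have h7 := sum_le_sum fun i (_ : i ∈ (K1.image σ)ᶜ) =>
          coll hμ (K1.image σ) (K2.image σ) hne i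
        have h8 := sum_le_sum fun i (_ : i ∈ (K2.image σ)ᶜ) =>
          coll hμ (K2.image σ) (K1.image σ) hne.symm i
        have h9 : ∀ i, ∑ ω : Cf ι n,
            (if ω.2 (K2.image σ) i = ω.2 (K1.image σ) i then WW μ ω else 0) =
            ∑ ω : Cf ι n,
            (if ω.2 (K1.image σ) i = ω.2 (K2.image σ) i then WW μ ω else 0) := fun i =>
          sum_congr rfl fun ω _ => by simp only [eq_comm]
        simp only [h9] at h8
        linarith
      have h3 := sum_le_sum fun σ (_ : σ ∈ (univ : Finset (Equiv.Perm ι))) => h2 σ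
      rw [sum_add_distrib] at h3
      have h4 := hcoll K1 hK1c
      have h5 := hcoll K2 hK2c
      linarith)
    (by
      rw [Fintype.card_perm]
      have h2 : ∀ σ : Equiv.Perm ι, ∑ ω : Cf ι n, WW μ ω *
          ∑ T ∈ powersetCard β (univ : Finset (E1.image σ)), Dv (cc σ ω) T =
          ∑ T ∈ powersetCard β E1, (rk μ (E1.image σ) (S.image fun K => K.image σ) -
            rk μ ((E1 \ T).image σ) (S.image fun K => K.image σ)) := by
        intro σ
        simp only [mul_sum]
        rw [sum_comm]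
        have h3 : ∀ T : Finset (E1.image σ), ∑ ω : Cf ι n, WW μ ω * Dv (cc σ ω) T =
            rk μ (E1.image σ) (S.image fun K => K.image σ) -
            rk μ (E1.image σ \ T.image Subtype.val) (S.image fun K => K.image σ) := fun T =>
          cl_Dv hμ hμ1 (hEσS σ) Subtype.val_injective (fun i => i.2) T
        simp only [h3]
        rw [← sum_powersetCard_image (Subtype.val : (E1.image σ) → ι) Subtype.val_injective
          univ β fun T => rk μ (E1.image σ) (S.image fun K => K.image σ) -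
            rk μ (E1.image σ \ T) (S.image fun K => K.image σ)]
        have h4 : (univ : Finset (E1.image σ)).image Subtype.val = E1.image σ := by
          ext i; simp
        rw [h4, sum_powersetCard_image σ σ.injective]
        refine sum_congr rfl fun T _ => ?_
        rw [image_sdiff _ _ σ.injective]
      simp only [h2]
      rw [sum_comm]
      have h3 : ∀ T ∈ powersetCard β E1, ∑ σ : Equiv.Perm ι,
          (rk μ (E1.image σ) (S.image fun K => K.image σ) -
            rk μ ((E1 \ T).image σ) (S.image fun K => K.image σ)) ≤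
          ((Fintype.card ι).factorial : ℝ) * Real.log n * (1 / 640) := by
        intro T hT
        rw [sum_sub_distrib, hbR, hbR, hsym T hT, ← mul_sub]
        exact mul_le_mul_of_nonneg_left hR hZ.le
      refine (sum_le_sum h3).trans (le_of_eq ?_)
      rw [sum_const, card_powersetCard, nsmul_eq_mul]
      ring)
    (by
      rw [Fintype.card_perm]
      have h2 : ∀ σ : Equiv.Perm ι, ∑ ω : Cf ι n, WW μ ω * Dv (cc σ ω) univ =
          rk μ (E1.image σ) (S.image fun K => K.image σ) := by
        intro σ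
        have h3 := cl_Dv hμ hμ1 (hEσS σ) (e := (Subtype.val : (E1.image σ) → ι))
          Subtype.val_injective (fun i => i.2) univ
        have h4 : (univ : Finset (E1.image σ)).image Subtype.val = E1.image σ := by
          ext i; simp
        rw [h4, Finset.sdiff_self, rk_empty_left, sub_zero] at h3
        exact h3
      simp only [h2]
      rw [hbR]
      have h3 := hRS.le (E := E1) (S := S) hES
      have h4 : d * ((S.card : ℝ) + 1) ≤ ((B:ℝ) + 1) * d := by
        have : (S.card : ℝ) ≤ B := by exact_mod_cast hSB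
        nlinarith
      have h5 := mul_le_mul_of_nonneg_left (h3.trans h4) hZ.le
      refine h5.trans (le_of_eq ?_)
      ring)
  -- no collisions
  have hnc : ∀ i ∉ E1.image σ, ω.2 (K1.image σ) i ≠ ω.2 (K2.image σ) i := by
    intro i hi h
    have h2 : (1:ℝ) ≤ ∑ i ∈ (E1.image σ)ᶜ,
        if ω.2 (K1.image σ) i = ω.2 (K2.image σ) i then (1:ℝ) else 0 := by
      refine le_trans (le_of_eq ?_) (single_le_sum (f := fun i =>
        if ω.2 (K1.image σ) i = ω.2 (K2.image σ) i then (1:ℝ) else 0) (fun j _ => ?_)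
        (mem_compl.2 hi))
      · rw [if_pos h]
      · split_ifs <;> norm_num
    linarith
  -- the collision hypothesis for the conditional law
  have hcardE : Fintype.card (E1.image σ) = E1.card := by
    rw [Fintype.card_coe, card_image_of_injective _ σ.injective]
  have hEιc : E1.card ≤ Fintype.card ι := by rw [← card_univ]; exact card_le_card (subset_univ _)
  have hE0pos : 1 ≤ E0.card := (le_max_right _ _).trans hE0c
  obtain ⟨T0, _, hT0⟩ : ∃ T0 : Finset (E1.image σ), T0 ⊆ univ ∧ T0.card = β :=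
    exists_subset_card_eq (by rw [card_univ, hcardE]; omega)
  have hcP : IsP (cc σ ω) := ⟨cl_nonneg hμ _ _ _, cl_sum hμ _ _ hω⟩
  have hcOK : CollOK (cc σ ω) := by
    refine nd_coll hcP.1 hcP.2 (by rw [hcardE]; omega) ?_ T0 (by rw [hcardE, hT0]; omega) ?_
    · rw [hcardE]
      have : (E1.card : ℝ) ≤ Fintype.card ι := by exact_mod_cast hEιc
      nlinarith
    · have h2 := perm_sum_subsets (Dv (cc σ ω)) T0
      rw [hcardE, hT0] at h2
      rw [hcardE]
      have h3 := mul_le_mul_of_nonneg_left hBB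
        (Nat.cast_nonneg (α := ℝ) E1.card.factorial)
      rw [← h2] at h3
      refine le_of_mul_le_mul_left (h3.trans (le_of_eq ?_)) hchoose
      ring
  have hN0E : N0' ≤ (E1.image σ).card := by
    rw [card_image_of_injective _ σ.injective]
    have := (le_max_left N0' 1).trans hE0c
    omega
  obtain ⟨x, y, κ, hκ, hxy, hw⟩ := hm (E1.image σ) hN0E n
    ((le_sup (f := m) (mem_univ _)).trans ((Nat.le_add_right _ _).trans hn)) (cc σ ω) hcP hC
    hcOK
  -- the extended cube
  refine ⟨fun i => if h : i ∈ E1.image σ then x ⟨i, h⟩ else ω.2 (K1.image σ) i,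
    fun i => if h : i ∈ E1.image σ then y ⟨i, h⟩ else ω.2 (K2.image σ) i,
    fun i => if h : i ∈ E1.image σ then (κ ⟨i, h⟩).castSucc else Fin.last t, ?_, ?_, ?_⟩
  · intro j
    induction j using Fin.lastCases with
    | last =>
      have : ∃ i, i ∉ E1.image σ := by
        by_contra h
        push Not at h
        have h2 : E1.image σ = univ := eq_univ_iff_forall.2 h
        have h3 := congrArg card h2
        rw [card_image_of_injective _ σ.injective, card_univ] at h3
        have h4 := card_le_card (hES K1 hK1S)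
        omega
      obtain ⟨i, hi⟩ := this
      exact ⟨i, by simp only [dif_neg hi]⟩
    | cast j =>
      obtain ⟨⟨i, hi⟩, rfl⟩ := hκ j
      exact ⟨i, by simp only [dif_pos hi]⟩
  · intro i
    by_cases hi : i ∈ E1.image σ
    · simp only [dif_pos hi]; exact hxy _
    · simp only [dif_neg hi]; exact hnc i hi
  · intro ε
    have h2 := hw fun j => ε j.castSucc
    by_cases hε : ε (Fin.last t) = true
    · refine cl_supp h2 (fun i hi => ⟨⟨i, hi⟩, rfl⟩)
        (mem_image_of_mem (fun K => K.image σ) hK1S) (image_subset_image (hES K1 hK1S)) _ ?_ ?_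
      · intro j
        simp only [dif_pos j.2, Subtype.coe_eta]
      · intro i hi
        simp only [dif_neg hi, hε, if_true]
    · refine cl_supp h2 (fun i hi => ⟨⟨i, hi⟩, rfl⟩)
        (mem_image_of_mem (fun K => K.image σ) hK2S) (image_subset_image (hES K2 hK2S)) _ ?_ ?_
      · intro j
        simp only [dif_pos j.2, Subtype.coe_eta]
      · intro i hi
        simp only [dif_neg hi, hε]
        simp

theorem cubeP (t : ℕ) (ht : 1 ≤ t) : CubeP t := by
  induction t, ht using Nat.le_induction with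
  | base => exact base
  | succ t _ ih => exact step t ih

end Pool.Agent.H48.Sp
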