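import Mathlib

/-! Templates: large edges built from choice functions, and averaging over permutations of the
vertices.  (Following the library module `MP_3581cd_co/OneUniformity`.) -/

set_option autoImplicit false

namespace Pool.Agent.H48.Tp

open Finset

/-! ### Counting permutations -/

lemma exists_perm_map {n : ℕ} (A B : Finset (Fin n)) (h : A.card = B.card) :
    ∃ τ : Equiv.Perm (Fin n), A.map τ.toEmbedding = B := by
  classical
  let e : {x // x ∈ A} ≃ {x // x ∈ B} := Finset.equivOfCardEq h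
  refine ⟨e.extendSubtype, ?_⟩
  apply Finset.eq_of_subset_of_card_le
  · intro y hy
    rw [Finset.mem_map] at hy
    obtain ⟨x, hx, rfl⟩ := hy
    exact e.extendSubtype_mem x hx
  · rw [Finset.card_map, h]

noncomputable def cnt {n : ℕ} (H : Finset (Finset (Fin n))) (A : Finset (Fin n)) : ℕ :=
  ((Finset.univ : Finset (Equiv.Perm (Fin n))).filter
    (fun σ => A.map σ.toEmbedding ∈ H)).card

lemma cnt_eq {n : ℕ} (H : Finset (Finset (Fin n))) (A B : Finset (Fin n))
    (h : A.card = B.card) : cnt H A = cnt H B := by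
  classical
  obtain ⟨τ, hτ⟩ := exists_perm_map A B h
  unfold cnt
  refine Finset.card_bij' (fun σ _ => σ * τ⁻¹) (fun σ _ => σ * τ) ?_ ?_ ?_ ?_
  · intro σ hσ
    rw [Finset.mem_filter] at hσ ⊢
    refine ⟨Finset.mem_univ _, ?_⟩
    rw [← hτ, Finset.map_map]
    have : (τ.toEmbedding.trans (σ * τ⁻¹).toEmbedding) = σ.toEmbedding := by
      ext x; simp
    rw [this]; exact hσ.2
  · intro σ hσ
    rw [Finset.mem_filter] at hσ ⊢
    refine ⟨Finset.mem_univ _, ?_⟩
    have h2 := hσ.2
    rw [← hτ, Finset.map_map] at h2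
    have : (τ.toEmbedding.trans σ.toEmbedding) = (σ * τ).toEmbedding := by
      ext x; simp
    rw [this] at h2; exact h2
  · intro σ _; simp
  · intro σ _; simp

lemma choose_mul_cnt {n K : ℕ} (H : Finset (Finset (Fin n))) (hH : ∀ A ∈ H, A.card = K)
    (A : Finset (Fin n)) (hA : A.card = K) :
    n.choose K * cnt H A = n.factorial * H.card := by
  classical
  have h1 : ∑ B ∈ Finset.powersetCard K (Finset.univ : Finset (Fin n)), cnt H B
      = n.choose K * cnt H A := by
    rw [Finset.sum_congr rfl (g := fun _ => cnt H A)]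
    · rw [Finset.sum_const, Finset.card_powersetCard, Finset.card_univ, Fintype.card_fin,
        smul_eq_mul]
    · intro B hB
      rw [Finset.mem_powersetCard] at hB
      exact cnt_eq H B A (by rw [hB.2, hA])
  rw [← h1]
  have h2 := Finset.sum_card_bipartiteAbove_eq_sum_card_bipartiteBelow
    (s := Finset.powersetCard K (Finset.univ : Finset (Fin n)))
    (t := (Finset.univ : Finset (Equiv.Perm (Fin n))))
    (fun (B : Finset (Fin n)) (σ : Equiv.Perm (Fin n)) => B.map σ.toEmbedding ∈ H)
  have h3 : ∑ B ∈ Finset.powersetCard K (Finset.univ : Finset (Fin n)), cnt H B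
      = ∑ B ∈ Finset.powersetCard K (Finset.univ : Finset (Fin n)),
        (Finset.bipartiteAbove (fun (B : Finset (Fin n)) (σ : Equiv.Perm (Fin n)) =>
          B.map σ.toEmbedding ∈ H) (Finset.univ : Finset (Equiv.Perm (Fin n))) B).card := by
    refine Finset.sum_congr rfl (fun B _ => ?_)
    unfold cnt Finset.bipartiteAbove
    rfl
  rw [h3, h2]
  rw [Finset.sum_congr rfl (g := fun _ => H.card)]
  · rw [Finset.sum_const, Finset.card_univ, Fintype.card_perm, Fintype.card_fin, smul_eq_mul]
  · intro σ _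
    unfold Finset.bipartiteBelow
    refine Finset.card_bij' (fun B _ => B.map σ.toEmbedding) (fun B _ => B.map σ⁻¹.toEmbedding)
      ?_ ?_ ?_ ?_
    · intro B hB
      rw [Finset.mem_filter] at hB; exact hB.2
    · intro B hB
      rw [Finset.mem_filter, Finset.mem_powersetCard]
      refine ⟨⟨Finset.subset_univ _, ?_⟩, ?_⟩
      · rw [Finset.card_map]; exact hH B hB
      · change (B.map σ⁻¹.toEmbedding).map σ.toEmbedding ∈ H
        rw [Finset.map_map]
        have : (σ⁻¹.toEmbedding.trans σ.toEmbedding) = Function.Embedding.refl _ := by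
          ext x; simp
        rw [this, Finset.map_refl]; exact hB
    · intro B _
      rw [Finset.map_map]
      have : (σ.toEmbedding.trans σ⁻¹.toEmbedding) = Function.Embedding.refl _ := by
        ext x; simp
      rw [this, Finset.map_refl]
    · intro B _
      rw [Finset.map_map]
      have : (σ⁻¹.toEmbedding.trans σ.toEmbedding) = Function.Embedding.refl _ := by
        ext x; simp
      rw [this, Finset.map_refl]

/-! ### The template -/

section template

variable {k K M n : ℕ} (π : Fin K → Fin k) (ι : Fin K × Fin M ↪ Fin n)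

/-- the large edge of a choice function -/
def U (f : Fin k → Fin M) : Finset (Fin n) :=
  Finset.univ.image (fun x => ι (x, f (π x)))

lemma mem_U (f : Fin k → Fin M) (v : Fin n) :
    v ∈ U π ι f ↔ ∃ x, ι (x, f (π x)) = v := by
  unfold U
  simp

lemma U_card (f : Fin k → Fin M) : (U π ι f).card = K := by
  unfold U
  rw [Finset.card_image_of_injective, Finset.card_univ, Fintype.card_fin]
  intro i j h
  have := ι.injective h
  rw [Prod.mk.injEq] at this
  exact this.1

lemma U_inj (hπ : Function.Surjective π) : Function.Injective (U (k := k) π ι) := by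
  intro f g h
  funext j
  obtain ⟨x, rfl⟩ := hπ j
  have h1 : ι (x, f (π x)) ∈ U π ι f := Finset.mem_image.2 ⟨x, Finset.mem_univ _, rfl⟩
  rw [h] at h1
  obtain ⟨y, _, hy⟩ := Finset.mem_image.1 h1
  have := ι.injective hy
  rw [Prod.mk.injEq] at this
  obtain ⟨h2, h3⟩ := this
  subst h2
  exact h3.symm

lemma U_disj (f g : Fin k → Fin M) (h : ∀ i, f i ≠ g i) :
    Disjoint (U π ι f) (U π ι g) := by
  rw [Finset.disjoint_left]
  intro v hv hv'
  obtain ⟨x, hx⟩ := (mem_U π ι f v).1 hv
  obtain ⟨y, hy⟩ := (mem_U π ι g v).1 hv'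
  have := ι.injective (hx.trans hy.symm)
  rw [Prod.mk.injEq] at this
  obtain ⟨h2, h3⟩ := this
  subst h2
  exact h _ h3

lemma U_un (f g f' g' : Fin k → Fin M)
    (h : ∀ i, (f i = f' i ∧ g i = g' i) ∨ (f i = g' i ∧ g i = f' i)) :
    U π ι f ∪ U π ι g = U π ι f' ∪ U π ι g' := by
  ext v
  rw [Finset.mem_union, Finset.mem_union, mem_U, mem_U, mem_U, mem_U]
  constructor
  · rintro (⟨x, hx⟩ | ⟨x, hx⟩)
    · rcases h (π x) with h1 | h1
      · left; exact ⟨x, by rw [← h1.1]; exact hx⟩
      · right; exact ⟨x, by rw [← h1.1]; exact hx⟩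
    · rcases h (π x) with h1 | h1
      · right; exact ⟨x, by rw [← h1.2]; exact hx⟩
      · left; exact ⟨x, by rw [← h1.2]; exact hx⟩
  · rintro (⟨x, hx⟩ | ⟨x, hx⟩)
    · rcases h (π x) with h1 | h1
      · left; exact ⟨x, by rw [h1.1]; exact hx⟩
      · right; exact ⟨x, by rw [h1.2]; exact hx⟩
    · rcases h (π x) with h1 | h1
      · right; exact ⟨x, by rw [h1.2]; exact hx⟩
      · left; exact ⟨x, by rw [h1.1]; exact hx⟩

end template

/-! ### The averaging -/

/-- Averaging over all permutations. -/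
lemma averaging {k K M n : ℕ} (π : Fin K → Fin k) (ι : Fin K × Fin M ↪ Fin n)
    (H : Finset (Finset (Fin n))) (hH : ∀ A ∈ H, A.card = K) (X : ℝ)
    (hX : ∀ σ : Equiv.Perm (Fin n), (((Finset.univ : Finset (Fin k → Fin M)).filter
      (fun f => (U π ι f).map σ.toEmbedding ∈ H)).card : ℝ) ≤ X) :
    (M : ℝ) ^ k * H.card ≤ X * n.choose K := by
  classical
  have h2 := Finset.sum_card_bipartiteAbove_eq_sum_card_bipartiteBelow
    (s := (Finset.univ : Finset (Fin k → Fin M)))
    (t := (Finset.univ : Finset (Equiv.Perm (Fin n))))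
    (fun (f : Fin k → Fin M) (σ : Equiv.Perm (Fin n)) => (U π ι f).map σ.toEmbedding ∈ H)
  have h3 : ∀ f : Fin k → Fin M, n.choose K *
      (Finset.bipartiteAbove (fun (f : Fin k → Fin M) (σ : Equiv.Perm (Fin n)) =>
        (U π ι f).map σ.toEmbedding ∈ H) (Finset.univ : Finset (Equiv.Perm (Fin n))) f).card
      = n.factorial * H.card := by
    intro f
    exact choose_mul_cnt H hH (U π ι f) (U_card π ι f)
  have h4 : n.choose K * ∑ f : Fin k → Fin M,
      (Finset.bipartiteAbove (fun (f : Fin k → Fin M) (σ : Equiv.Perm (Fin n)) =>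
        (U π ι f).map σ.toEmbedding ∈ H) (Finset.univ : Finset (Equiv.Perm (Fin n))) f).card
      = M ^ k * (n.factorial * H.card) := by
    rw [Finset.mul_sum, Finset.sum_congr rfl (fun f _ => h3 f), Finset.sum_const,
      Finset.card_univ, smul_eq_mul]
    simp
  have h5 : ((∑ σ : Equiv.Perm (Fin n),
      (Finset.bipartiteBelow (fun (f : Fin k → Fin M) (σ : Equiv.Perm (Fin n)) =>
        (U π ι f).map σ.toEmbedding ∈ H) (Finset.univ : Finset (Fin k → Fin M)) σ).card : ℕ) : ℝ)
      ≤ n.factorial * X := by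
    push_cast
    calc (∑ σ : Equiv.Perm (Fin n),
      ((Finset.bipartiteBelow (fun (f : Fin k → Fin M) (σ : Equiv.Perm (Fin n)) =>
        (U π ι f).map σ.toEmbedding ∈ H) (Finset.univ : Finset (Fin k → Fin M)) σ).card : ℝ))
        ≤ ∑ _σ : Equiv.Perm (Fin n), X := Finset.sum_le_sum (fun σ _ => hX σ)
      _ = n.factorial * X := by
        rw [Finset.sum_const, Finset.card_univ, Fintype.card_perm, Fintype.card_fin, nsmul_eq_mul]
  rw [h2] at h4
  have h6 : (n.choose K : ℝ) * ((∑ σ : Equiv.Perm (Fin n),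
      (Finset.bipartiteBelow (fun (f : Fin k → Fin M) (σ : Equiv.Perm (Fin n)) =>
        (U π ι f).map σ.toEmbedding ∈ H) (Finset.univ : Finset (Fin k → Fin M)) σ).card : ℕ) : ℝ)
      = (M : ℝ) ^ k * ((n.factorial : ℝ) * H.card) := by
    exact_mod_cast h4
  have h7 : (M : ℝ) ^ k * ((n.factorial : ℝ) * H.card) ≤ n.choose K * (n.factorial * X) := by
    rw [← h6]; exact mul_le_mul_of_nonneg_left h5 (Nat.cast_nonneg _)
  have hf : (0 : ℝ) < n.factorial := by exact_mod_cast n.factorial_pos
  nlinarith [h7, hf]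

end Pool.Agent.H48.Tp
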