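import Pool.Agent.H48.Split.Step

/-! Dense families contain cubes. -/

set_option autoImplicit false
set_option linter.unusedSectionVars false

namespace Pool.Agent.H48.Sp

open Finset Classical

variable {ι : Type} [Fintype ι] {n : ℕ}

/-- uniform weights on `F` -/
noncomputable def uw (F : Finset (ι → Fin n)) (a : ι → Fin n) : ℝ :=
  if a ∈ F then 1 / (F.card : ℝ) else 0

theorem uw_isP {F : Finset (ι → Fin n)} (hF : 0 < F.card) : IsP (uw F) := by
  have hF' : (0:ℝ) < F.card := by exact_mod_cast hF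
  refine ⟨fun a => ?_, ?_⟩
  · unfold uw; split_ifs <;> positivity
  · unfold uw
    rw [Finset.sum_ite_mem, univ_inter, sum_const, nsmul_eq_mul]
    field_simp

theorem uw_HH {F : Finset (ι → Fin n)} (hF : 0 < F.card) :
    HH (uw F) cv univ = Real.log F.card := by
  have hF' : (0:ℝ) < F.card := by exact_mod_cast hF
  unfold HH
  have h1 : ∀ a : ι → Fin n, uw F a * Real.log (ms (uw F) cv univ a) =
      if a ∈ F then -(1 / (F.card : ℝ) * Real.log F.card) else 0 := by
    intro a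
    rw [ms_cv_univ]
    unfold uw
    split_ifs
    · rw [one_div, Real.log_inv]; ring
    · simp
  simp only [h1]
  rw [Finset.sum_ite_mem, univ_inter, sum_const, nsmul_eq_mul]
  field_simp

theorem uw_pp {F : Finset (ι → Fin n)} (hF : 0 < F.card) (hn : 1 ≤ n)
    (K : Finset ι) (i : ι) (hi : i ∉ K) :
    ∑ a, uw F a * pp (uw F) K i a ≤ (n:ℝ) ^ (Fintype.card ι - 1) / F.card := by
  have hF' : (0:ℝ) < F.card := by exact_mod_cast hF
  obtain ⟨cs, hcs, h2⟩ := pp_cs (uw_isP hF).1 hn K i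
  rw [← h2]
  have h3 : ∑ a : ι → Fin n, uw F a * (if a i = cs a then (1:ℝ) else 0) =
      ((F.filter fun a => a i = cs a).card : ℝ) / F.card := by
    have : ∀ a : ι → Fin n, uw F a * (if a i = cs a then (1:ℝ) else 0) =
        if a ∈ F.filter (fun a => a i = cs a) then 1 / (F.card : ℝ) else 0 := by
      intro a
      unfold uw
      by_cases h1 : a ∈ F
      · by_cases h2 : a i = cs a
        · rw [if_pos h1, if_pos h2, if_pos (mem_filter.2 ⟨h1, h2⟩), mul_one]
        · have h3 : a ∉ F.filter fun a => a i = cs a := fun h => h2 (mem_filter.1 h).2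
          rw [if_neg h2, if_neg h3, mul_zero]
      · have h3 : a ∉ F.filter fun a => a i = cs a := fun h => h1 (mem_filter.1 h).1
        rw [if_neg h1, if_neg h3, zero_mul]
    simp only [this]
    rw [Finset.sum_ite_mem, univ_inter, sum_const, nsmul_eq_mul]
    ring
  rw [h3]
  refine div_le_div_of_nonneg_right ?_ hF'.le
  have h4 : (F.filter fun a => a i = cs a).card ≤
      (univ : Finset ({j : ι // j ≠ i} → Fin n)).card := by
    refine card_le_card_of_injOn (fun a j => a j.1) (fun _ _ => by simp) ?_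
    intro a ha b hb hab
    have ha' := (mem_filter.1 (mem_coe.1 ha)).2
    have hb' := (mem_filter.1 (mem_coe.1 hb)).2
    have h5 : ∀ j, j ≠ i → a j = b j := fun j hj => congrFun hab ⟨j, hj⟩
    have h6 : cs a = cs b := hcs a b fun j hj => h5 j fun h => hi (h ▸ hj)
    funext j
    by_cases hj : j = i
    · rw [hj, ha', hb', h6]
    · exact h5 j hj
  have h5 : (univ : Finset ({j : ι // j ≠ i} → Fin n)).card = n ^ (Fintype.card ι - 1) := by
    rw [card_univ, Fintype.card_fun, Fintype.card_fin]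
    congr 1
    rw [Fintype.card_subtype_compl, Fintype.card_subtype_eq]
  rw [h5] at h4
  exact_mod_cast h4

theorem uw_coll {F : Finset (ι → Fin n)} (hn : 1 ≤ n) (hk : 1 ≤ Fintype.card ι)
    (hF : 20 * (Fintype.card ι : ℝ) * (n:ℝ) ^ (Fintype.card ι - 1) ≤ F.card) (hF0 : 0 < F.card) :
    CollOK (uw F) := by
  intro K _
  have hF' : (0:ℝ) < F.card := by exact_mod_cast hF0
  have hk' : (0:ℝ) < Fintype.card ι := by exact_mod_cast hk
  have h1 : ∀ σ : Equiv.Perm ι, ∑ i ∈ (K.image σ)ᶜ,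
      ∑ a, uw F a * pp (uw F) (K.image σ) i a ≤ 1 / 20 := by
    intro σ
    have h2 : ∀ i ∈ (K.image σ)ᶜ, ∑ a, uw F a * pp (uw F) (K.image σ) i a ≤
        1 / (20 * (Fintype.card ι : ℝ)) := by
      intro i hi
      refine (uw_pp hF0 hn _ i (mem_compl.1 hi)).trans ?_
      rw [div_le_div_iff₀ hF' (by positivity)]
      linarith
    refine (sum_le_sum h2).trans ?_
    rw [sum_const, nsmul_eq_mul]
    have h3 : (((K.image σ)ᶜ).card : ℝ) ≤ Fintype.card ι := by
      exact_mod_cast card_le_univ ((K.image σ)ᶜ)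
    calc (((K.image σ)ᶜ).card : ℝ) * (1 / (20 * (Fintype.card ι : ℝ))) ≤
        (Fintype.card ι : ℝ) * (1 / (20 * (Fintype.card ι : ℝ))) :=
          mul_le_mul_of_nonneg_right h3 (by positivity)
      _ = 1 / 20 := by field_simp
  refine (sum_le_sum fun σ _ => h1 σ).trans (le_of_eq ?_)
  rw [sum_const, card_univ, Fintype.card_perm, nsmul_eq_mul]
  ring

theorem uw_all {F : Finset (ι → Fin n)} (hn : 1 ≤ n) (hk : 1 ≤ Fintype.card ι)
    (hF : 20 * (Fintype.card ι : ℝ) * (n:ℝ) ^ (Fintype.card ι - 1) ≤ F.card) :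
    IsP (uw F) ∧ Dv (uw F) univ ≤ 1 * Real.log n ∧ CollOK (uw F) := by
  have hk' : (1:ℝ) ≤ Fintype.card ι := by exact_mod_cast hk
  have hn' : (0:ℝ) < n := by exact_mod_cast hn
  have hF' : (0:ℝ) < F.card := lt_of_lt_of_le (by positivity) hF
  have hF0 : 0 < F.card := by exact_mod_cast hF'
  have hpow : (n:ℝ) ^ (Fintype.card ι - 1) ≤ F.card := by
    refine le_trans ?_ hF
    have : (0:ℝ) < (n:ℝ) ^ (Fintype.card ι - 1) := by positivity
    nlinarith
  refine ⟨uw_isP hF0, ?_, uw_coll hn hk hF hF0⟩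
  unfold Dv
  rw [uw_HH hF0, card_univ, one_mul]
  have h1 := Real.log_le_log (by positivity) hpow
  rw [Real.log_pow, Nat.cast_sub hk] at h1
  push_cast at h1
  linarith

/-- dense families contain cubes -/
theorem cube (t : ℕ) (ht : 1 ≤ t) : ∃ k : ℕ, 1 ≤ k ∧ ∃ n0 : ℕ, ∀ n, n0 ≤ n →
    ∀ F : Finset (Fin k → Fin n), 20 * (k:ℝ) * (n:ℝ) ^ (k - 1) ≤ F.card →
      CubeIn t fun a => a ∈ F := by
  obtain ⟨N0, hN0⟩ := cubeP t ht 1 le_rfl
  refine ⟨max N0 1, le_max_right _ _, ?_⟩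
  obtain ⟨k, hk⟩ : ∃ k, k = max N0 1 := ⟨_, rfl⟩
  rw [← hk]
  obtain ⟨n0, hn0⟩ := hN0 (Fin k) (by rw [Fintype.card_fin, hk]; exact le_max_left _ _)
  have hk1 : 1 ≤ k := by rw [hk]; exact le_max_right _ _
  refine ⟨max n0 1, fun n hn F hF => ?_⟩
  have hn1 : 1 ≤ n := (le_max_right _ _).trans hn
  obtain ⟨a1, a2, a3⟩ := uw_all (F := F) hn1 (by rw [Fintype.card_fin]; exact hk1)
    (by rw [Fintype.card_fin]; exact hF)
  obtain ⟨x, y, κ, h1, h2, h3⟩ := hn0 n ((le_max_left _ _).trans hn) (uw F) a1 a2 a3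
  refine ⟨x, y, κ, h1, h2, fun ε => ?_⟩
  have h4 := h3 ε
  by_contra h
  apply h4
  unfold uw
  rw [if_neg h]

end Pool.Agent.H48.Sp
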